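import Pool.Agent.Q206.ISC.Upper

/-!
The classes `Gam C`.
-/

namespace Pool.Agent.Q206.ISC

open Encodable Denumerable Pool.Agent.Helper446 Pool.Agent.Helper446.RE
open Pool.Agent.Helper446.CB

theorem ncard_lt (m : ℕ) : {k : ℕ | k < m}.ncard = m := by
  have : {k : ℕ | k < m} = ((Finset.range m : Finset ℕ) : Set ℕ) := by
    ext k; simp
  rw [this, Set.ncard_coe_finset, Finset.card_range]

theorem finite_lt (m : ℕ) : {k : ℕ | k < m}.Finite := Set.finite_Iio m

theorem dec_le {p : ℕ → Prop} (hp : ∀ k, p (k + 1) → p k) {k j : ℕ} (hkj : k ≤ j) (h : p j) :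
    p k := by
  induction j, hkj using Nat.le_induction with
  | base => exact h
  | succ j _ ih => exact ih (hp j h)

theorem dec_fin {p : ℕ → Prop} (hp : ∀ k, p (k + 1) → p k) (hf : {k | p k}.Finite) (k : ℕ) :
    p k ↔ k < {k | p k}.ncard := by
  classical
  have hex : ∃ n, ¬ p n := by
    by_contra h
    push Not at h
    have : {k | p k} = Set.univ := Set.eq_univ_of_forall h
    rw [this] at hf
    exact Set.infinite_univ hf
  have hset : {k | p k} = {k | k < Nat.find hex} := by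
    ext j
    simp only [Set.mem_ofPred_eq]
    constructor
    · intro hj
      by_contra hlt
      exact Nat.find_spec hex (dec_le hp (by omega) hj)
    · intro hj
      have := Nat.find_min hex hj
      simpa using this
  rw [hset, ncard_lt]
  have := Set.ext_iff.1 hset k
  simpa using this

theorem dec_inf {p : ℕ → Prop} (hp : ∀ k, p (k + 1) → p k) (hf : ¬ {k | p k}.Finite) (k : ℕ) :
    p k := by
  by_contra h
  refine hf ((finite_lt k).subset fun j hj => ?_)
  show j < k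
  by_contra hlt
  exact h (dec_le hp (by omega) hj)

/-- `I_C` is in its class. -/
theorem gam_upper {π : ℕ → List ℕ → Bool} (hπ : EffEnum π) {C : Set ℕ} (hC : ¬ C ⊆ {0}) :
    Gam C (I π C) := by
  obtain ⟨c0, hc0, hne⟩ := Set.not_subset.1 hC
  have hc1 : 1 ≤ c0 := by
    rcases Nat.eq_zero_or_pos c0 with h | h
    · exact absurd h hne
    · exact h
  classical
  refine ⟨fun q => ((q.1 + 2 : ℕ) : ℕ∞) ≤ (P π q.2 ∩ Cantor).encard ∨
    (P π q.2 ∩ Cantor = ∅ ∧ (if 0 ∈ C then c0 - 1 else q.1 + 1) > q.1), ?_, ?_, ?_⟩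
  · refine Sig.or ?_ (Sig.and ?_ ?_)
    · exact (ge_sig hπ).comp (f := fun q : ℕ × ℕ => (q.1 + 2, q.2)) (by fun_prop)
    · exact Sig.succ ((zero_sig hπ).comp (f := fun q : ℕ × ℕ => q.2) (by fun_prop))
    · by_cases h0 : 0 ∈ C
      · simp only [if_pos h0]
        exact Sig.of_cp (RE.cp_lt (f := fun q : ℕ × ℕ => q.1) (by fun_prop) (by fun_prop))
      · simp only [if_neg h0]
        exact Sig.of_cp (RE.cp_lt (f := fun q : ℕ × ℕ => q.1) (by fun_prop) (by fun_prop))
  · intro k e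
    dsimp only
    rintro (h | ⟨h1, h2⟩)
    · left
      refine le_trans ?_ h
      exact_mod_cast (by omega : k + 2 ≤ k + 1 + 2)
    · refine Or.inr ⟨h1, ?_⟩
      split_ifs at h2 ⊢ <;> omega
  · intro e
    dsimp only
    by_cases he : P π e ∩ Cantor = ∅
    · have hset : {k : ℕ | ((k + 2 : ℕ) : ℕ∞) ≤ (P π e ∩ Cantor).encard ∨
          (P π e ∩ Cantor = ∅ ∧ (if 0 ∈ C then c0 - 1 else k + 1) > k)} =
          {k : ℕ | (if 0 ∈ C then c0 - 1 else k + 1) > k} := by
        ext k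
        simp only [Set.mem_ofPred_eq, he, Set.encard_empty, true_and]
        constructor
        · rintro (h | h)
          · exact absurd h (by simp)
          · exact h
        · exact Or.inr
      rw [hset]
      unfold I
      rw [he]
      by_cases h0 : 0 ∈ C
      · simp only [if_pos h0]
        refine ⟨fun _ => ⟨finite_lt (c0 - 1), ?_⟩, fun _ => ⟨Set.finite_empty, by simpa using h0⟩⟩
        have : {k : ℕ | c0 - 1 > k}.ncard = c0 - 1 := ncard_lt (c0 - 1)
        rw [this, Nat.sub_add_cancel hc1]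
        exact hc0
      · simp only [if_neg h0]
        refine ⟨fun h => absurd h.2 (by simpa using h0), ?_⟩
        rintro ⟨h1, -⟩
        exfalso
        have : {k : ℕ | k + 1 > k} = Set.univ := Set.eq_univ_of_forall fun k => by
          show k + 1 > k
          omega
        rw [this] at h1
        exact Set.infinite_univ h1
    · have hset : {k : ℕ | ((k + 2 : ℕ) : ℕ∞) ≤ (P π e ∩ Cantor).encard ∨
          (P π e ∩ Cantor = ∅ ∧ (if 0 ∈ C then c0 - 1 else k + 1) > k)} =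
          {k : ℕ | ((k + 2 : ℕ) : ℕ∞) ≤ (P π e ∩ Cantor).encard} := by
        ext k
        simp only [Set.mem_ofPred_eq, he, false_and, or_false]
      rw [hset]
      unfold I
      by_cases hf : (P π e ∩ Cantor).Finite
      · have hpos : (P π e ∩ Cantor).ncard ≠ 0 := by
          rw [Ne, Set.ncard_eq_zero hf]
          exact he
        have hset2 : {k : ℕ | ((k + 2 : ℕ) : ℕ∞) ≤ (P π e ∩ Cantor).encard} =
            {k : ℕ | k < (P π e ∩ Cantor).ncard - 1} := by
          ext k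
          simp only [Set.mem_ofPred_eq]
          rw [← hf.cast_ncard_eq, Nat.cast_le]
          omega
        rw [hset2, ncard_lt]
        have h1 : (P π e ∩ Cantor).ncard - 1 + 1 = (P π e ∩ Cantor).ncard := by omega
        rw [h1]
        exact ⟨fun h => ⟨finite_lt _, h.2⟩, fun h => ⟨hf, h.2⟩⟩
      · constructor
        · rintro ⟨h, -⟩
          exact absurd h hf
        · rintro ⟨h, -⟩
          exfalso
          have : {k : ℕ | ((k + 2 : ℕ) : ℕ∞) ≤ (P π e ∩ Cantor).encard} = Set.univ :=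
            Set.eq_univ_of_forall fun k => by
              show ((k + 2 : ℕ) : ℕ∞) ≤ (P π e ∩ Cantor).encard
              rw [Set.Infinite.encard_eq hf]
              exact le_top
          rw [this] at h
          exact Set.infinite_univ h

theorem gam_of_red {C : Set ℕ} {X Y : ℕ → Prop} (h : ManyOneReducible X Y) (hY : Gam C Y) :
    Gam C X := by
  obtain ⟨f, hf, hfXY⟩ := h
  obtain ⟨B, hB, hdec, hYB⟩ := hY
  exact ⟨fun q => B (q.1, f q.2), hB.comp (f := fun q : ℕ × ℕ => (q.1, f q.2)) (by fun_prop),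
    fun k x => hdec k (f x), fun x => (hfXY x).trans (hYB (f x))⟩

theorem sig_of_red {n : ℕ} {X Y : ℕ → Prop} (h : ManyOneReducible X Y) (hY : Sig n Y) :
    Sig n X := by
  obtain ⟨f, hf, hfXY⟩ := h
  exact (hY.comp hf).of_iff fun x => (hfXY x).symm

theorem gam_complete {π : ℕ → List ℕ → Bool} (hπ : EffEnum π) {C : Set ℕ} (hC : ¬ C ⊆ {0}) :
    Complete (Gam C) (I π C) := ⟨gam_upper hπ hC, fun _ hX => gam_hard hπ hX⟩

/-- Infinite or finite `Σ⁰₃` sets `C` give `Σ⁰₃` sets. -/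
theorem gam_sig3 {C : Set ℕ} (hC : Sig 3 fun n : ℕ => n ∈ C) {X : ℕ → Prop} (hX : Gam C X) :
    Sig 3 X := by
  obtain ⟨B, hB, hdec, hX⟩ := hX
  refine Sig.of_iff (p := fun x => ∃ m, (m + 1 ∈ C ∧ ∀ k < m, B (k, x)) ∧ ¬ B (m, x)) ?_ ?_
  · refine Sig.exN (n := 2) (p := fun (x : ℕ) (m : ℕ) =>
      (m + 1 ∈ C ∧ ∀ k < m, B (k, x)) ∧ ¬ B (m, x)) ?_
    refine Sig.and (Sig.and ?_ ?_) ?_
    · exact hC.comp (f := fun q : ℕ × ℕ => q.2 + 1) (by fun_prop)
    · refine Sig.succ (Sig.all_lt (p := fun (q : ℕ × ℕ) (k : ℕ) => B (k, q.1)) ?_ (by fun_prop))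
      exact hB.comp (f := fun r : (ℕ × ℕ) × ℕ => (r.2, r.1.1)) (by fun_prop)
    · exact Pi.sig (Sig.not (hB.comp (f := fun q : ℕ × ℕ => (q.2, q.1)) (by fun_prop)))
  · intro x
    rw [hX x]
    constructor
    · rintro ⟨m, ⟨h1, h2⟩, h3⟩
      have hset : {k | B (k, x)} = {k | k < m} := by
        ext k
        constructor
        · intro hk
          by_contra hlt
          exact h3 (dec_le (p := fun k => B (k, x)) (fun k => hdec k x) (not_lt.1 hlt) hk)
        · intro hk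
          exact h2 k hk
      rw [hset, ncard_lt]
      exact ⟨finite_lt m, h1⟩
    · rintro ⟨h1, h2⟩
      have h3 := dec_fin (p := fun k => B (k, x)) (fun k => hdec k x) h1
      refine ⟨_, ⟨h2, fun k hk => (h3 k).2 hk⟩, fun h => ?_⟩
      exact absurd ((h3 _).1 h) (lt_irrefl _)

/-- A monotone selector. -/
theorem sel_mono {C : Set ℕ} (h : Sel C) : ∃ w : ℕ → ℕ, (∀ k, k ≤ w k ∧ w k ∈ C) ∧ Monotone w ∧
    Sig 2 fun p : ℕ × ℕ => p.2 ≤ w p.1 := by
  obtain ⟨v, hv, hS⟩ := h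
  have hex : ∀ k, ∃ m, (∃ j, k ≤ j ∧ v j = m) ∧ ∀ j, k ≤ j → m ≤ v j := by
    intro k
    classical
    have hne : ∃ m, ∃ j, k ≤ j ∧ v j = m := ⟨v k, k, le_refl k, rfl⟩
    exact ⟨Nat.find hne, Nat.find_spec hne, fun j hj => Nat.find_le ⟨j, hj, rfl⟩⟩
  choose w hw1 hw2 using hex
  refine ⟨w, fun k => ?_, ?_, ?_⟩
  · obtain ⟨j, hj, hjw⟩ := hw1 k
    exact ⟨by rw [← hjw]; exact hj.trans (hv j).1, by rw [← hjw]; exact (hv j).2⟩
  · intro k l hkl
    obtain ⟨j, hj, hjw⟩ := hw1 l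
    rw [← hjw]
    exact hw2 k j (hkl.trans hj)
  · refine Sig.of_iff (p := fun p : ℕ × ℕ => ∀ j < p.2, p.1 ≤ j → p.2 ≤ v j) ?_ ?_
    · refine Sig.all_lt (p := fun (p : ℕ × ℕ) (j : ℕ) => p.1 ≤ j → p.2 ≤ v j) ?_ (by fun_prop)
      refine Sig.imp ?_ ?_
      · exact Pi.of_cp (RE.cp_le (by fun_prop) (by fun_prop))
      · exact hS.comp (f := fun r : (ℕ × ℕ) × ℕ => (r.2, r.1.2)) (by fun_prop)
    · rintro ⟨k, n⟩
      dsimp only
      constructor
      · intro h
        obtain ⟨j, hj, hjw⟩ := hw1 k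
        rw [← hjw]
        by_cases hjn : j < n
        · exact h j hjn hj
        · exact (not_lt.1 hjn).trans (hv j).1
      · intro h j _ hj
        exact h.trans (hw2 k j hj)

theorem gam_of_sel {C : Set ℕ} (hC : Sel C) {X : ℕ → Prop} (hX : Sig 3 X) : Gam C X := by
  obtain ⟨w, hw, hmono, hS⟩ := sel_mono hC
  obtain ⟨q, hq, hXq⟩ := hX
  refine ⟨fun y => ∃ m, (∀ a < m, q (y.2, a)) ∧ y.1 + 2 ≤ w (m + 1), ?_, ?_, ?_⟩
  · refine Sig.exN (n := 1) (p := fun (y : ℕ × ℕ) (m : ℕ) =>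
      (∀ a < m, q (y.2, a)) ∧ y.1 + 2 ≤ w (m + 1)) (Sig.and ?_ ?_)
    · refine Sig.all_lt (p := fun (r : (ℕ × ℕ) × ℕ) (a : ℕ) => q (r.1.2, a)) ?_ (by fun_prop)
      exact hq.comp (f := fun r : ((ℕ × ℕ) × ℕ) × ℕ => (r.1.1.2, r.2)) (by fun_prop)
    · exact hS.comp (f := fun r : (ℕ × ℕ) × ℕ => (r.2 + 1, r.1.1 + 2)) (by fun_prop)
  · rintro k x ⟨m, h1, h2⟩
    exact ⟨m, h1, by omega⟩
  · intro x
    rw [hXq x]
    by_cases hex : ∃ a, ¬ q (x, a)
    · classical
      have hm0 := Nat.find_spec hex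
      set m0 := Nat.find hex with hm0def
      have hmin : ∀ a < m0, q (x, a) := fun a ha => by
        have := Nat.find_min hex ha
        simpa using this
      have hset : {k | ∃ m, (∀ a < m, q (x, a)) ∧ k + 2 ≤ w (m + 1)} =
          {k | k < w (m0 + 1) - 1} := by
        ext k
        simp only [Set.mem_ofPred_eq]
        constructor
        · rintro ⟨m, h1, h2⟩
          have h3 : m ≤ m0 := by
            by_contra hlt
            exact hm0 (h1 m0 (by omega))
          have h4 := hmono (show m + 1 ≤ m0 + 1 by omega)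
          omega
        · intro h
          exact ⟨m0, hmin, by omega⟩
      dsimp only
      rw [hset, ncard_lt]
      have h1 := (hw (m0 + 1)).1
      rw [show w (m0 + 1) - 1 + 1 = w (m0 + 1) by omega]
      exact ⟨fun _ => ⟨finite_lt _, (hw _).2⟩, fun _ => hex⟩
    · constructor
      · intro h
        exact absurd h hex
      · rintro ⟨h1, -⟩
        exfalso
        have : {k | ∃ m, (∀ a < m, q (x, a)) ∧ k + 2 ≤ w (m + 1)} = Set.univ := by
          refine Set.eq_univ_of_forall fun k => ?_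
          push Not at hex
          refine ⟨k + 1, fun a _ => hex a, ?_⟩
          exact (hw (k + 1 + 1)).1
        exact Set.infinite_univ (this ▸ h1)

theorem sel_of_sig2 {C : Set ℕ} (hinf : C.Infinite) (hC : Sig 2 fun n : ℕ => n ∈ C) : Sel C := by
  obtain ⟨U', hU, hUV, hUex, hUu⟩ := Sig.uniformize (k := 1) (V := fun (k d : ℕ) => k ≤ d ∧ d ∈ C)
    (Sig.and (Sig.of_cp (RE.cp_le (by fun_prop) (by fun_prop)))
      (hC.comp (f := fun x : ℕ × ℕ => x.2) (by fun_prop)))
  have hex : ∀ k, ∃ d, U' k d := fun k => by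
    refine hUex k ?_
    obtain ⟨d, hd, hkd⟩ := hinf.exists_gt k
    exact ⟨d, hkd.le, hd⟩
  choose v hv using hex
  refine ⟨v, fun k => hUV k _ (hv k), ?_⟩
  refine Sig.of_iff (p := fun p : ℕ × ℕ => ∃ d, U' p.1 d ∧ p.2 ≤ d) ?_ ?_
  · refine Sig.exN (n := 1) (p := fun (p : ℕ × ℕ) (d : ℕ) => U' p.1 d ∧ p.2 ≤ d) (Sig.and ?_ ?_)
    · exact hU.comp (f := fun r : (ℕ × ℕ) × ℕ => (r.1.1, r.2)) (by fun_prop)
    · exact Sig.of_cp (RE.cp_le (by fun_prop) (by fun_prop))
  · rintro ⟨k, n⟩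
    constructor
    · rintro ⟨d, h1, h2⟩
      have := hUu k _ _ h1 (hv k)
      dsimp only at h2 ⊢
      omega
    · intro h
      exact ⟨v k, hv k, h⟩

theorem sel_of_pi2 {C : Set ℕ} (hinf : C.Infinite) (hC : Pi 2 fun n : ℕ => n ∈ C) : Sel C := by
  classical
  have hex : ∀ k, ∃ d, k ≤ d ∧ d ∈ C := fun k => by
    obtain ⟨d, hd, hkd⟩ := hinf.exists_gt k
    exact ⟨d, hkd.le, hd⟩
  refine ⟨fun k => Nat.find (hex k), fun k => Nat.find_spec (hex k), ?_⟩
  refine Sig.of_iff (p := fun p : ℕ × ℕ => ∀ d < p.2, p.1 ≤ d → ¬ d ∈ C) ?_ ?_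
  · refine Sig.all_lt (p := fun (p : ℕ × ℕ) (d : ℕ) => p.1 ≤ d → ¬ d ∈ C) ?_ (by fun_prop)
    refine Sig.imp (Pi.of_cp (RE.cp_le (by fun_prop) (by fun_prop))) ?_
    exact Sig.comp (p := fun n : ℕ => ¬ n ∈ C) hC (f := fun r : (ℕ × ℕ) × ℕ => r.2) (by fun_prop)
  · rintro ⟨k, n⟩
    dsimp only
    rw [Nat.le_find_iff]
    refine forall_congr' fun d => ?_
    tauto

/-- A universal `Σ⁰_{n+1}` set. -/
theorem exists_univ (n : ℕ) : ∃ W : ℕ × ℕ → Prop, Sig (n + 1) W ∧
    ∀ p : ℕ → Prop, Sig (n + 1) p → ∃ i, ∀ x, p x ↔ W (i, x) := by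
  induction n with
  | zero =>
    refine ⟨fun q => ∃ s, wst ℕ q.1 s q.2 = true, ?_, fun p hp => ?_⟩
    · refine Sig.exN (n := 0) (p := fun (q : ℕ × ℕ) (s : ℕ) => wst ℕ q.1 s q.2 = true) ?_
      refine Sig.of_cp (RE.cp_eq ?_ (by fun_prop))
      exact (wst_comp (α := ℕ)).comp (g := fun r : (ℕ × ℕ) × ℕ => ((r.1.1, r.2), r.1.2))
        (by fun_prop)
    · exact wst_univ (sig_one.1 hp)
  | succ n ih =>
    obtain ⟨W, hW, hu⟩ := ih
    refine ⟨fun q => ∃ m, ¬ W (q.1, Nat.pair q.2 m), ?_, fun p hp => ?_⟩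
    · refine Sig.exN (n := n + 1) (p := fun (q : ℕ × ℕ) (m : ℕ) => ¬ W (q.1, Nat.pair q.2 m)) ?_
      refine Pi.sig (Sig.not ?_)
      exact hW.comp (f := fun r : (ℕ × ℕ) × ℕ => (r.1.1, Nat.pair r.1.2 r.2)) (by fun_prop)
    · obtain ⟨q, hq, hpq⟩ := hp
      obtain ⟨i, hi⟩ := hu (fun y => q (y.unpair.1, y.unpair.2))
        (hq.comp (f := fun y : ℕ => (y.unpair.1, y.unpair.2)) (by fun_prop))
      refine ⟨i, fun x => ?_⟩
      rw [hpq x]
      refine exists_congr fun m => ?_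
      rw [← hi]
      simp

theorem exists_sig3_not_pi3 : ∃ S : ℕ → Prop, Sig 3 S ∧ ¬ Pi 3 S := by
  obtain ⟨W, hW, hu⟩ := exists_univ 2
  refine ⟨fun x => W (x, x), hW.comp (f := fun x : ℕ => (x, x)) (by fun_prop), fun h => ?_⟩
  obtain ⟨i, hi⟩ := hu _ h
  have := hi i
  tauto

/-- Hardness for `Σ⁰₃` gives a selector. -/
theorem sel_of_hard {C : Set ℕ} (h : ∀ X : ℕ → Prop, Sig 3 X → Gam C X) : Sel C := by
  classical
  obtain ⟨S, hS, hS'⟩ := exists_sig3_not_pi3
  obtain ⟨W, hW, hu⟩ := exists_univ 1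
  have hZ : Sig 3 fun z : ℕ => W (z.unpair.1, Nat.pair z.unpair.2.unpair.1 z) ∨
      S z.unpair.2.unpair.2 := by
    refine Sig.or (Sig.succ ?_) ?_
    · exact hW.comp (f := fun z : ℕ => (z.unpair.1, Nat.pair z.unpair.2.unpair.1 z))
        (by fun_prop)
    · exact hS.comp (f := fun z : ℕ => z.unpair.2.unpair.2) (by fun_prop)
  obtain ⟨B, hB, hdec, hZB⟩ := h _ hZ
  obtain ⟨i, hi⟩ := hu (fun y => B (y.unpair.1, y.unpair.2))
    (hB.comp (f := fun y : ℕ => (y.unpair.1, y.unpair.2)) (by fun_prop))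
  let z : ℕ → ℕ → ℕ := fun k q => Nat.pair i (Nat.pair k q)
  have hWB : ∀ k q, W (i, Nat.pair k (z k q)) ↔ B (k, z k q) := by
    intro k q
    rw [← hi]
    simp
  have hZz : ∀ k q, (B (k, z k q) ∨ S q) ↔
      {k' | B (k', z k q)}.Finite ∧ {k' | B (k', z k q)}.ncard + 1 ∈ C := by
    intro k q
    rw [← hZB (z k q), ← hWB]
    simp [z]
  have hex : ∀ k, ∃ q, B (k, z k q) := by
    intro k
    by_contra hno
    push Not at hno
    apply hS'
    let L : List ℕ := (List.range (k + 1)).filter fun m => m + 1 ∈ C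
    have hmemL : ∀ m, m ∈ L ↔ m < k + 1 ∧ m + 1 ∈ C := by
      intro m
      simp [L]
    refine Pi.of_iff (p := fun q => ∃ m ∈ L, (∀ k' < m, B (k', z k q)) ∧ ¬ B (m, z k q)) ?_ ?_
    · refine Pi.bex (p := fun (q m : ℕ) => (∀ k' < m, B (k', z k q)) ∧ ¬ B (m, z k q))
        (l := fun _ => L) ?_ (by fun_prop)
      refine Pi.and ?_ ?_
      · refine Sig.pi (Sig.all_lt (p := fun (r : ℕ × ℕ) (k' : ℕ) => B (k', z k r.1)) ?_
          (by fun_prop))
        exact hB.comp (f := fun r : (ℕ × ℕ) × ℕ => (r.2, z k r.1.1)) (by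
          simp only [z]
          fun_prop)
      · refine Pi.succ (Sig.not ?_)
        exact hB.comp (f := fun r : ℕ × ℕ => (r.2, z k r.1)) (by
          simp only [z]
          fun_prop)
    · intro q
      have h1 : S q ↔ (B (k, z k q) ∨ S q) := by
        constructor
        · exact Or.inr
        · rintro (h2 | h2)
          · exact absurd h2 (hno q)
          · exact h2
      rw [h1, hZz k q]
      constructor
      · rintro ⟨m, hm, h2, h3⟩
        rw [hmemL] at hm
        have hset : {k' | B (k', z k q)} = {k' | k' < m} := by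
          ext k'
          constructor
          · intro hk
            by_contra hlt
            exact h3 (dec_le (p := fun k' => B (k', z k q)) (fun k' => hdec k' _)
              (not_lt.1 hlt) hk)
          · intro hk
            exact h2 k' hk
        rw [hset, ncard_lt]
        exact ⟨finite_lt m, hm.2⟩
      · rintro ⟨h2, h3⟩
        have h4 := dec_fin (p := fun k' => B (k', z k q)) (fun k' => hdec k' _) h2
        refine ⟨{k' | B (k', z k q)}.ncard, ?_, fun k' hk' => (h4 k').2 hk', fun h5 => ?_⟩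
        · rw [hmemL]
          refine ⟨?_, h3⟩
          by_contra hlt
          exact hno q ((h4 k).2 (by omega))
        · exact absurd ((h4 _).1 h5) (lt_irrefl _)
  obtain ⟨U', hU, hUV, hUex, hUu⟩ := Sig.uniformize (k := 1) (V := fun (k q : ℕ) => B (k, z k q))
    (hB.comp (f := fun r : ℕ × ℕ => (r.1, z r.1 r.2)) (by
      simp only [z]
      fun_prop))
  have hex2 : ∀ k, ∃ q, U' k q := fun k => hUex k (hex k)
  choose g hg using hex2
  have hBg : ∀ k, B (k, z k (g k)) := fun k => hUV k _ (hg k)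
  have hfin : ∀ k, {k' | B (k', z k (g k))}.Finite ∧ {k' | B (k', z k (g k))}.ncard + 1 ∈ C :=
    fun k => (hZz k (g k)).1 (Or.inl (hBg k))
  have hdf : ∀ k k', B (k', z k (g k)) ↔ k' < {k' | B (k', z k (g k))}.ncard := fun k =>
    dec_fin (p := fun k' => B (k', z k (g k))) (fun k' => hdec k' _) (hfin k).1
  refine ⟨fun k => {k' | B (k', z k (g k))}.ncard + 1, fun k => ⟨?_, (hfin k).2⟩, ?_⟩
  · have := (hdf k k).1 (hBg k)
    dsimp only
    omega
  · refine Sig.of_iff (p := fun p : ℕ × ℕ => ∃ q, U' p.1 q ∧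
      (p.2 ≤ 1 ∨ B (p.2 - 2, z p.1 q))) ?_ ?_
    · refine Sig.exN (n := 1) (p := fun (p : ℕ × ℕ) (q : ℕ) => U' p.1 q ∧
        (p.2 ≤ 1 ∨ B (p.2 - 2, z p.1 q))) (Sig.and ?_ (Sig.or ?_ ?_))
      · exact hU.comp (f := fun r : (ℕ × ℕ) × ℕ => (r.1.1, r.2)) (by fun_prop)
      · exact Sig.of_cp (RE.cp_le (by fun_prop) (by fun_prop))
      · exact hB.comp (f := fun r : (ℕ × ℕ) × ℕ => (r.1.2 - 2, z r.1.1 r.2)) (by
          simp only [z]
          fun_prop)
    · rintro ⟨k, n⟩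
      dsimp only
      constructor
      · rintro ⟨q, hq, h2⟩
        have hqg := hUu k _ _ hq (hg k)
        rw [hqg] at h2
        rcases h2 with h2 | h2
        · omega
        · have := (hdf k (n - 2)).1 h2
          omega
      · intro h2
        refine ⟨g k, hg k, ?_⟩
        by_cases hn : n ≤ 1
        · exact Or.inl hn
        · right
          rw [hdf k]
          omega

end Pool.Agent.Q206.ISC
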