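import Pool.Agent.Helper446.CB.Hier

/-!
Index sets of `Π⁰₁` classes with cardinality in a given set: the definitions.
-/

namespace Pool.Agent.Q206.ISC

open Pool.Agent.Helper446.CB

/-- The finite sequence of the first `n` values of `X`. -/
def pre (X : ℕ → ℕ) (n : ℕ) : List ℕ := (List.range n).map X

/-- An effective enumeration of the primitive recursive functions from finite sequences of
natural numbers to `{0,1}`: it is uniformly computable, it lists primitive recursive functions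
only, it lists all of them, and it has the parameter (s-m-n) property of the standard numbering. -/
structure EffEnum (π : ℕ → List ℕ → Bool) : Prop where
  comp : Computable fun p : ℕ × List ℕ => π p.1 p.2
  prim : ∀ e, Primrec (π e)
  surj : ∀ f : List ℕ → Bool, Primrec f → ∃ e, π e = f
  smn : ∀ F : ℕ → List ℕ → Bool, (Primrec fun p : ℕ × List ℕ => F p.1 p.2) →
    ∃ f : ℕ → ℕ, Computable f ∧ ∀ x, π (f x) = F x

/-- The tree `U_e`: all prefixes get the value `1`. -/
def U (π : ℕ → List ℕ → Bool) (e : ℕ) : Set (List ℕ) := {σ | ∀ τ, τ <+: σ → π e τ = true}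

/-- The class `P_e = [U_e]` of infinite paths through `U_e`. -/
def P (π : ℕ → List ℕ → Bool) (e : ℕ) : Set (ℕ → ℕ) := {X | ∀ n, pre X n ∈ U π e}

/-- The Cantor space `2^ω` as a subset of `ω^ω`. -/
def Cantor : Set (ℕ → ℕ) := {X | ∀ n, X n < 2}

/-- The index set `I_C`: `P_e ∩ 2^ω` is finite and its cardinality is in `C`. -/
def I (π : ℕ → List ℕ → Bool) (C : Set ℕ) : ℕ → Prop :=
  fun e => (P π e ∩ Cantor).Finite ∧ (P π e ∩ Cantor).ncard ∈ C

/-- `A` is many-one complete for the class `Γ`. -/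
def Complete (Γ : (ℕ → Prop) → Prop) (A : ℕ → Prop) : Prop :=
  Γ A ∧ ∀ X : ℕ → Prop, Γ X → ManyOneReducible X A

/-- The `r`-th level of the difference hierarchy over `Σ⁰₂`:
`X = (B_0 \ B_1) ∪ (B_2 \ B_3) ∪ ⋯` for a decreasing sequence `B_0 ⊇ B_1 ⊇ ⋯ ⊇ B_{r-1}` of
`Σ⁰₂` sets, i.e. `x ∈ X` iff the number of `i < r` with `x ∈ B_i` is odd. -/
def DiffS2 (r : ℕ) (X : ℕ → Prop) : Prop :=
  ∃ B : ℕ → ℕ → Prop, (∀ i < r, Sig 2 (B i)) ∧ (∀ i, i + 1 < r → ∀ x, B (i + 1) x → B i x) ∧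
    ∀ x, X x ↔ Odd {i | i < r ∧ B i x}.ncard

/-- Complements of the sets of the `r`-th level of the difference hierarchy over `Σ⁰₂`. -/
def CoDiffS2 (r : ℕ) (X : ℕ → Prop) : Prop := DiffS2 r fun x => ¬ X x

/-- The number of switches of `C` from `2` on: the number of `k ≥ 2` with exactly one of
`k - 1`, `k` in `C`. -/
noncomputable def switches (C : Set ℕ) : ℕ := {k | 2 ≤ k ∧ ¬ (k ∈ C ↔ k - 1 ∈ C)}.ncard

/-- The class of the sets `X` for which there is a uniformly `Σ⁰₂` decreasing sequence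
`B_0 ⊇ B_1 ⊇ ⋯` such that `x ∈ X` iff the number of `k` with `x ∈ B_k` is finite and, increased
by one, belongs to `C`. -/
def Gam (C : Set ℕ) (X : ℕ → Prop) : Prop :=
  ∃ B : ℕ × ℕ → Prop, Sig 2 B ∧ (∀ k x, B (k + 1, x) → B (k, x)) ∧
    ∀ x, X x ↔ {k | B (k, x)}.Finite ∧ {k | B (k, x)}.ncard + 1 ∈ C

/-- `C` has a selector approximable from below with a `0'` oracle: a function `v` with
`k ≤ v k ∈ C` for which `n ≤ v k` is a `Σ⁰₂` relation. -/
def Sel (C : Set ℕ) : Prop :=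
  ∃ v : ℕ → ℕ, (∀ k, k ≤ v k ∧ v k ∈ C) ∧ Sig 2 fun p : ℕ × ℕ => p.2 ≤ v p.1

end Pool.Agent.Q206.ISC
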