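import Pool.Agent.Q206.ISC.Defs

/-!
Existence of an effective enumeration of the primitive recursive functions from finite sequences
to `{0,1}`.
-/

namespace Pool.Agent.Q206.ISC

open Encodable Denumerable Pool.Agent.Helper446 Pool.Agent.Helper446.RE
open Nat.Partrec (Code)
open Nat.Partrec.Code (eval)

/-- codes without the minimisation operator -/
def isPR : Code → Bool
  | Code.zero => true
  | Code.succ => true
  | Code.left => true
  | Code.right => true
  | Code.pair a b => isPR a && isPR b
  | Code.comp a b => isPR a && isPR b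
  | Code.prec a b => isPR a && isPR b
  | Code.rfind' _ => false

theorem isPR_primrec : Primrec isPR := by
  have hand : Primrec₂ fun (_ : Code) (p : Code × Code × Bool × Bool) => p.2.2.1 && p.2.2.2 := by
    refine Primrec.and.comp ?_ ?_
    · exact Primrec.fst.comp (Primrec.snd.comp (Primrec.snd.comp Primrec.snd))
    · exact Primrec.snd.comp (Primrec.snd.comp (Primrec.snd.comp Primrec.snd))
  have h := Nat.Partrec.Code.primrec_recOn' (α := Code) (σ := Bool) (c := id) Primrec.id
    (z := fun _ => true) (Primrec.const _) (s := fun _ => true) (Primrec.const _)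
    (l := fun _ => true) (Primrec.const _) (r := fun _ => true) (Primrec.const _)
    (pr := fun _ p => p.2.2.1 && p.2.2.2) hand
    (co := fun _ p => p.2.2.1 && p.2.2.2) hand
    (pc := fun _ p => p.2.2.1 && p.2.2.2) hand
    (rf := fun _ _ => false) (Primrec₂.const _)
  refine h.of_eq fun c => ?_
  simp only [id]
  induction c with
  | zero => rfl
  | succ => rfl
  | left => rfl
  | right => rfl
  | pair a b iha ihb => simp only [isPR, ← iha, ← ihb]
  | comp a b iha ihb => simp only [isPR, ← iha, ← ihb]
  | prec a b iha ihb => simp only [isPR, ← iha, ← ihb]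
  | rfind' a _ => rfl

theorem isPR_eval : ∀ c : Code, isPR c = true →
    ∃ f : ℕ → ℕ, Nat.Primrec f ∧ ∀ n, eval c n = Part.some (f n) := by
  intro c
  induction c with
  | zero => exact fun _ => ⟨fun _ => 0, Nat.Primrec.zero, fun n => rfl⟩
  | succ => exact fun _ => ⟨Nat.succ, Nat.Primrec.succ, fun n => rfl⟩
  | left => exact fun _ => ⟨fun n => n.unpair.1, Nat.Primrec.left, fun n => rfl⟩
  | right => exact fun _ => ⟨fun n => n.unpair.2, Nat.Primrec.right, fun n => rfl⟩
  | pair a b iha ihb =>
    intro h
    simp only [isPR, Bool.and_eq_true] at h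
    obtain ⟨f, hf, hf'⟩ := iha h.1
    obtain ⟨g, hg, hg'⟩ := ihb h.2
    refine ⟨fun n => Nat.pair (f n) (g n), hf.pair hg, fun n => ?_⟩
    simp [eval, hf', hg', Seq.seq]
  | comp a b iha ihb =>
    intro h
    simp only [isPR, Bool.and_eq_true] at h
    obtain ⟨f, hf, hf'⟩ := iha h.1
    obtain ⟨g, hg, hg'⟩ := ihb h.2
    refine ⟨fun n => f (g n), hf.comp hg, fun n => ?_⟩
    simp [eval, hf', hg']
  | prec a b iha ihb =>
    intro h
    simp only [isPR, Bool.and_eq_true] at h
    obtain ⟨f, hf, hf'⟩ := iha h.1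
    obtain ⟨g, hg, hg'⟩ := ihb h.2
    refine ⟨_, hf.prec hg, fun n => ?_⟩
    simp only [eval, Nat.unpaired]
    induction n.unpair.2 with
    | zero => simp [hf']
    | succ k ih =>
      simp only [ih]
      simp [hg']
  | rfind' a _ => simp [isPR]

theorem exists_PR {f : ℕ → ℕ} (hf : Nat.Primrec f) :
    ∃ c : Code, isPR c = true ∧ ∀ n, eval c n = Part.some (f n) := by
  induction hf with
  | zero => exact ⟨Code.zero, rfl, fun n => rfl⟩
  | succ => exact ⟨Code.succ, rfl, fun n => rfl⟩
  | left => exact ⟨Code.left, rfl, fun n => rfl⟩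
  | right => exact ⟨Code.right, rfl, fun n => rfl⟩
  | pair _ _ ihf ihg =>
    obtain ⟨a, ha, ha'⟩ := ihf
    obtain ⟨b, hb, hb'⟩ := ihg
    exact ⟨Code.pair a b, by simp [isPR, ha, hb], fun n => by simp [eval, ha', hb', Seq.seq]⟩
  | comp _ _ ihf ihg =>
    obtain ⟨a, ha, ha'⟩ := ihf
    obtain ⟨b, hb, hb'⟩ := ihg
    exact ⟨Code.comp a b, by simp [isPR, ha, hb], fun n => by simp [eval, ha', hb']⟩
  | prec _ _ ihf ihg =>
    obtain ⟨a, ha, ha'⟩ := ihf
    obtain ⟨b, hb, hb'⟩ := ihg
    refine ⟨Code.prec a b, by simp [isPR, ha, hb], fun n => ?_⟩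
    simp only [eval, Nat.unpaired]
    induction n.unpair.2 with
    | zero => simp [ha']
    | succ k ih =>
      simp only [ih]
      simp [hb']

theorem isPR_const : ∀ n, isPR (Code.const n) = true
  | 0 => rfl
  | n + 1 => by simp [Code.const, isPR, isPR_const n]

theorem isPR_curry {c : Code} (h : isPR c = true) (n : ℕ) : isPR (Code.curry c n) = true := by
  simp [Code.curry, isPR, h, isPR_const, Code.id]

/-- the value of a code at a number, as a truth value -/
noncomputable def valB (c : Code) (n : ℕ) : Bool := by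
  classical exact decide (isPR c = true ∧ ∃ m ∈ eval c n, m ≠ 0)

theorem valB_of {c : Code} (h : isPR c = true) {n m : ℕ} (hm : eval c n = Part.some m) :
    valB c n = !(m == 0) := by
  unfold valB
  rw [hm]
  by_cases h0 : m = 0 <;> simp [h, h0]

theorem valB_not {c : Code} (h : isPR c = false) (n : ℕ) : valB c n = false := by
  unfold valB
  simp [h]

theorem valB_comp : Computable fun p : Code × ℕ => valB p.1 p.2 := by
  have h1 : Partrec fun p : Code × ℕ => (eval p.1 p.2).map fun m => !(m == 0) := by
    refine Partrec.map Nat.Partrec.Code.eval_part ?_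
    refine Computable₂.mk ?_
    exact (Primrec.not.comp (Primrec.beq.comp (Primrec.snd (α := Code × ℕ) (β := ℕ))
      (Primrec.const 0))).to_comp
  have h2 : Partrec fun p : Code × ℕ => cond (isPR p.1)
      ((eval p.1 p.2).map fun m => !(m == 0)) (Part.some false) :=
    Partrec.cond (isPR_primrec.to_comp.comp Computable.fst) h1 (Computable.const false).partrec
  refine h2.of_eq fun p => ?_
  rcases hc : isPR p.1 with _ | _
  · simp [valB_not hc]
  · obtain ⟨f, -, hf⟩ := isPR_eval p.1 hc
    simp [valB_of hc (hf p.2), hf]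

/-- the standard enumeration -/
noncomputable def stdEnum (e : ℕ) (σ : List ℕ) : Bool := valB (ofNat Code e) (encode σ)

theorem natPrimrec_of {F : ℕ → List ℕ → Bool} (hF : Primrec fun p : ℕ × List ℕ => F p.1 p.2) :
    Nat.Primrec fun m => cond (F m.unpair.1 (ofNat (List ℕ) m.unpair.2)) 1 0 := by
  refine Primrec.nat_iff.1 ?_
  refine Primrec.cond ?_ (Primrec.const 1) (Primrec.const 0)
  exact hF.comp (Primrec.pair (Primrec.fst.comp Primrec.unpair)
    ((Primrec.ofNat (List ℕ)).comp (Primrec.snd.comp Primrec.unpair)))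

theorem stdEnum_smn (F : ℕ → List ℕ → Bool) (hF : Primrec fun p : ℕ × List ℕ => F p.1 p.2) :
    ∃ f : ℕ → ℕ, Computable f ∧ ∀ x, stdEnum (f x) = F x := by
  obtain ⟨c, hc, hc'⟩ := exists_PR (natPrimrec_of hF)
  refine ⟨fun x => encode (Code.curry c x), ?_, fun x => ?_⟩
  · exact Computable.encode.comp
      (Nat.Partrec.Code.primrec₂_curry.comp (Primrec.const c) Primrec.id).to_comp
  · funext σ
    unfold stdEnum
    rw [ofNat_encode, valB_of (isPR_curry hc x)
      (m := cond (F x σ) 1 0) (by rw [Nat.Partrec.Code.eval_curry, hc']; simp)]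
    cases F x σ <;> simp

theorem stdEnum_prim (e : ℕ) : Primrec (stdEnum e) := by
  rcases hc : isPR (ofNat Code e) with _ | _
  · exact (Primrec.const false).of_eq fun σ => (valB_not hc _).symm
  · obtain ⟨f, hf, hf'⟩ := isPR_eval _ hc
    have : Primrec fun σ : List ℕ => !(f (encode σ) == 0) :=
      Primrec.not.comp (Primrec.beq.comp ((Primrec.nat_iff.2 hf).comp Primrec.encode)
        (Primrec.const 0))
    exact this.of_eq fun σ => (valB_of hc (hf' _)).symm

theorem stdEnum_eff : EffEnum stdEnum where
  comp := by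
    have : Computable fun p : ℕ × List ℕ => (ofNat Code p.1, encode p.2) :=
      ((Computable.ofNat Code).comp Computable.fst).pair (Computable.encode.comp Computable.snd)
    exact valB_comp.comp this
  prim := stdEnum_prim
  surj := by
    intro f hf
    obtain ⟨g, -, hg⟩ := stdEnum_smn (fun _ => f) (hf.comp Primrec.snd)
    exact ⟨g 0, hg 0⟩
  smn := stdEnum_smn

end Pool.Agent.Q206.ISC
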