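import Pool.Agent.Q206.ISC.Classes

/-!
Finite sets `C`: `Gam C` is a level of the difference hierarchy over `Σ⁰₂`, or its dual.
-/

namespace Pool.Agent.Q206.ISC

open Encodable Denumerable Pool.Agent.Helper446 Pool.Agent.Helper446.RE
open Pool.Agent.Helper446.CB
open scoped Classical in
/-- the switch predicate -/
def sw (C : Set ℕ) (k : ℕ) : Prop := 2 ≤ k ∧ ¬ (k ∈ C ↔ k - 1 ∈ C)

theorem sw_finite {C : Set ℕ} (hC : C.Finite) : (Set.ofPred (sw C)).Finite := by
  refine (hC.union (hC.image fun k => k + 1)).subset ?_
  rintro k ⟨hk, h⟩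
  by_cases h1 : k ∈ C
  · exact Or.inl h1
  · right
    have h2 : k - 1 ∈ C := by tauto
    exact ⟨k - 1, h2, by show k - 1 + 1 = k; omega⟩

theorem switches_eq {C : Set ℕ} (hC : C.Finite) : switches C = (sw_finite hC).toFinset.card := by
  unfold switches
  exact Set.ncard_eq_toFinset_card _ (sw_finite hC)

open Classical in
/-- parity of the number of switches up to `j` -/
theorem par (C : Set ℕ) {j : ℕ} (hj : 1 ≤ j) :
    (j ∈ C ↔ (1 ∈ C ↔ Even (Nat.count (sw C) (j + 1)))) := by
  induction j, hj using Nat.le_induction with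
  | base =>
    have : Nat.count (sw C) (1 + 1) = 0 := by
      rw [Nat.count_succ, Nat.count_succ, Nat.count_zero, if_neg, if_neg]
      · intro h; exact absurd h.1 (by omega)
      · intro h; exact absurd h.1 (by omega)
    rw [this]
    simp
  | succ j hj ih =>
    rw [Nat.count_succ]
    by_cases h : sw C (j + 1)
    · rw [if_pos h]
      have h1 := h.2
      rw [show j + 1 - 1 = j by omega] at h1
      rw [Nat.even_add_one]
      tauto
    · have h0 : Nat.count (sw C) (j + 1) + (if sw C (j + 1) then 1 else 0) =
          Nat.count (sw C) (j + 1) := by simp [h]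
      rw [h0, ← ih]
      by_contra h2
      apply h
      refine ⟨by omega, ?_⟩
      rw [show j + 1 - 1 = j by omega]
      exact h2

open Classical in
theorem one_mem_iff {C : Set ℕ} (hC : C.Finite) : 1 ∈ C ↔ Odd (switches C) := by
  obtain ⟨M, hM⟩ := (hC.union (sw_finite hC)).bddAbove
  have h1 : M + 1 ∉ C := fun h => by
    have := hM (Or.inl h)
    omega
  have h2 : Nat.count (sw C) (M + 1 + 1) = switches C := by
    rw [switches_eq hC, Nat.count_eq_card_filter_range]
    congr 1
    ext k
    simp only [Finset.mem_filter, Finset.mem_range, Set.Finite.mem_toFinset]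
    constructor
    · exact fun h => h.2
    · intro h
      have : k ≤ M := hM (Or.inr h)
      exact ⟨by omega, h⟩
  have h3 := par C (show 1 ≤ M + 1 by omega)
  rw [h2] at h3
  rw [← Nat.not_even_iff_odd]
  tauto

theorem two_le_switches {C : Set ℕ} (hC : C.Finite) (h0 : ¬ C ⊆ {0}) (h1 : 1 ∉ C) :
    2 ≤ switches C := by
  classical
  have hpar : ¬ Odd (switches C) := fun h => h1 ((one_mem_iff hC).2 h)
  rw [Nat.not_odd_iff_even] at hpar
  have hne : switches C ≠ 0 := by
    intro h
    rw [switches_eq hC, Finset.card_eq_zero] at h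
    obtain ⟨c, hc, hc0⟩ := Set.not_subset.1 h0
    have hc1 : 1 ≤ c := by
      rcases Nat.eq_zero_or_pos c with h2 | h2
      · exact absurd h2 hc0
      · exact h2
    have h3 := par C hc1
    have h4 : Nat.count (sw C) (c + 1) = 0 := by
      rw [Nat.count_eq_card_filter_range, Finset.card_eq_zero]
      ext k
      simp only [Finset.mem_filter, Finset.mem_range, Finset.notMem_empty, iff_false, not_and]
      intro _ hk
      have : k ∈ (sw_finite hC).toFinset := by
        rw [Set.Finite.mem_toFinset]
        exact hk
      rw [h] at this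
      exact absurd this (Finset.notMem_empty k)
    rw [h4] at h3
    simp only [Even.zero, iff_true] at h3
    exact h1 (h3.1 hc)
  obtain ⟨m, hm⟩ := hpar
  omega

theorem dec_lt_le {r : ℕ} {p : ℕ → Prop} (hp : ∀ i, i + 1 < r → p (i + 1) → p i) {k j : ℕ}
    (hkj : k ≤ j) (hj : j < r) (h : p j) : p k := by
  induction j, hkj using Nat.le_induction with
  | base => exact h
  | succ j _ ih => exact ih (by omega) (hp j hj h)

theorem dec_lt {r : ℕ} {p : ℕ → Prop} (hp : ∀ i, i + 1 < r → p (i + 1) → p i) :
    ({i | i < r ∧ p i}.ncard ≤ r) ∧ ∀ i < r, (p i ↔ i < {i | i < r ∧ p i}.ncard) := by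
  classical
  have hex : ∃ n, n = r ∨ ¬ p n := ⟨r, Or.inl rfl⟩
  have hle : Nat.find hex ≤ r := Nat.find_le (Or.inl rfl)
  have hset : {i | i < r ∧ p i} = {k | k < Nat.find hex} := by
    ext j
    simp only [Set.mem_ofPred_eq]
    constructor
    · rintro ⟨hj, hpj⟩
      by_contra hlt
      rcases Nat.find_spec hex with h | h
      · omega
      · exact h (dec_lt_le hp (by omega) hj hpj)
    · intro hj
      have := Nat.find_min hex hj
      push Not at this
      exact ⟨by omega, this.2⟩
  rw [hset, ncard_lt]
  refine ⟨hle, fun i hi => ?_⟩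
  have := Set.ext_iff.1 hset i
  simp only [Set.mem_ofPred_eq] at this
  rw [← this]
  tauto

/-- The classes of finite sets. -/
theorem gam_fin {C : Set ℕ} (hC : C.Finite) (X : ℕ → Prop) : Gam C X ↔
    ∃ B : ℕ → ℕ → Prop, (∀ i < switches C, Sig 2 (B i)) ∧
      (∀ i, i + 1 < switches C → ∀ x, B (i + 1) x → B i x) ∧
      ∀ x, X x ↔ (1 ∈ C ↔ Even {i | i < switches C ∧ B i x}.ncard) := by
  classical
  have hfin := sw_finite hC
  have hr := switches_eq hC
  set r := switches C with hrdef
  have hcard : ∀ i < r, ∀ hf : (Set.ofPred (sw C)).Finite, i < hf.toFinset.card := by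
    intro i hi hf
    rw [hr] at hi
    exact hi
  have hmem : ∀ i < r, sw C (Nat.nth (sw C) i) := fun i hi =>
    Nat.nth_mem _ (hcard i hi)
  have hnth : ∀ i < r, ∀ b, Nat.nth (sw C) i < b ↔ i < Nat.count (sw C) b := by
    intro i hi b
    constructor
    · intro h
      have h1 := Nat.count_monotone (sw C) (show Nat.nth (sw C) i + 1 ≤ b by omega)
      rw [Nat.count_nth_succ (hcard i hi)] at h1
      omega
    · intro h
      by_contra hlt
      have h1 := Nat.count_monotone (sw C) (not_lt.1 hlt)
      rw [Nat.count_nth (hcard i hi)] at h1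
      omega
  have hcle : ∀ b, Nat.count (sw C) b ≤ r := fun b => by
    rw [hr]
    exact Nat.count_le_card _ b
  constructor
  · rintro ⟨B, hB, hdec, hX⟩
    refine ⟨fun i x => B (Nat.nth (sw C) i - 2, x), fun i _ => ?_, fun i hi x h => ?_, fun x => ?_⟩
    · exact hB.comp (f := fun x : ℕ => (Nat.nth (sw C) i - 2, x)) (by fun_prop)
    · have h1 : Nat.nth (sw C) i < Nat.nth (sw C) (i + 1) :=
        Nat.nth_lt_nth_of_lt_card hfin (by omega) (by rw [← hr]; exact hi)
      exact dec_le (p := fun k => B (k, x)) (fun k => hdec k x) (by omega) h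
    · rw [hX x]
      by_cases hf : {k | B (k, x)}.Finite
      · have h1 := dec_fin (p := fun k => B (k, x)) (fun k => hdec k x) hf
        set N := {k | B (k, x)}.ncard with hN
        have hset : {i | i < r ∧ B (Nat.nth (sw C) i - 2, x)} =
            {i | i < Nat.count (sw C) (N + 1 + 1)} := by
          ext i
          simp only [Set.mem_ofPred_eq]
          constructor
          · rintro ⟨hi, h2⟩
            rw [← hnth i hi]
            have h3 := (h1 _).1 h2
            have h4 := (hmem i hi).1
            omega
          · intro h2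
            have hi : i < r := lt_of_lt_of_le h2 (hcle _)
            refine ⟨hi, (h1 _).2 ?_⟩
            rw [← hnth i hi] at h2
            have h4 := (hmem i hi).1
            omega
        rw [hset, ncard_lt]
        have h5 := par C (show 1 ≤ N + 1 by omega)
        constructor
        · rintro ⟨-, h6⟩
          exact h5.1 h6
        · intro h6
          exact ⟨hf, h5.2 h6⟩
      · have h1 := dec_inf (p := fun k => B (k, x)) (fun k => hdec k x) hf
        have hset : {i | i < r ∧ B (Nat.nth (sw C) i - 2, x)} = {i | i < r} := by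
          ext i
          simp only [Set.mem_ofPred_eq]
          exact ⟨fun h => h.1, fun h => ⟨h, h1 _⟩⟩
        rw [hset, ncard_lt]
        have h2 := one_mem_iff hC
        rw [← Nat.not_even_iff_odd] at h2
        constructor
        · rintro ⟨h3, -⟩
          exact absurd h3 hf
        · intro h3
          exfalso
          tauto
  · rintro ⟨B, hB, hdec, hX⟩
    refine ⟨fun y => ∃ i ∈ List.range r, y.1 + 2 ≤ Nat.nth (sw C) i ∧ B i y.2, ?_, ?_, ?_⟩
    · have : ∀ l : List ℕ, (∀ i ∈ l, i < r) →
          Sig 2 fun y : ℕ × ℕ => ∃ i ∈ l, y.1 + 2 ≤ Nat.nth (sw C) i ∧ B i y.2 := by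
        intro l
        induction l with
        | nil =>
          intro _
          refine (Sig.of_cp (n := 2) (RE.cp_lt (f := fun _ : ℕ × ℕ => 0) (g := fun _ => 0)
            (by fun_prop) (by fun_prop))).of_iff fun y => ?_
          simp
        | cons a l ih =>
          intro hl
          refine (Sig.or (Sig.and (Sig.of_cp (RE.cp_le (f := fun y : ℕ × ℕ => y.1 + 2)
            (g := fun _ => Nat.nth (sw C) a) (by fun_prop) (by fun_prop)))
            ((hB a (hl a (by simp))).comp (f := fun y : ℕ × ℕ => y.2) (by fun_prop)))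
            (ih fun i hi => hl i (by simp [hi]))).of_iff fun y => ?_
          simp
      exact this _ fun i hi => List.mem_range.1 hi
    · rintro k x ⟨i, hi, h1, h2⟩
      exact ⟨i, hi, by dsimp only at h1 ⊢; omega, h2⟩
    · intro x
      rw [hX x]
      obtain ⟨h1, h2⟩ := dec_lt (r := r) (p := fun i => B i x) fun i hi => hdec i hi x
      dsimp only at h1 h2 ⊢
      set m := {i | i < r ∧ B i x}.ncard with hm
      rcases Nat.eq_zero_or_pos m with h0 | h0
      · have hset : {k | ∃ i ∈ List.range r, k + 2 ≤ Nat.nth (sw C) i ∧ B i x} =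
            {k | k < 0} := by
          ext k
          simp only [Set.mem_ofPred_eq, List.mem_range]
          constructor
          · rintro ⟨i, hi, -, h3⟩
            have := (h2 i hi).1 h3
            omega
          · intro h3
            omega
        rw [hset, ncard_lt, h0]
        simp
      · have hset : {k | ∃ i ∈ List.range r, k + 2 ≤ Nat.nth (sw C) i ∧ B i x} =
            {k | k < Nat.nth (sw C) (m - 1) - 1} := by
          ext k
          simp only [Set.mem_ofPred_eq, List.mem_range]
          constructor
          · rintro ⟨i, hi, h3, h4⟩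
            have h5 := (h2 i hi).1 h4
            have h6 : Nat.nth (sw C) i ≤ Nat.nth (sw C) (m - 1) := by
              rcases Nat.lt_or_ge i (m - 1) with h7 | h7
              · exact (Nat.nth_lt_nth_of_lt_card hfin h7 (by rw [← hr]; omega)).le
              · have : i = m - 1 := by omega
                rw [this]
            omega
          · intro h3
            exact ⟨m - 1, by omega, by omega, (h2 (m - 1) (by omega)).2 (by omega)⟩
        rw [hset, ncard_lt]
        have h3 := (hmem (m - 1) (by omega)).1
        rw [show Nat.nth (sw C) (m - 1) - 1 + 1 = Nat.nth (sw C) (m - 1) by omega]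
        have h4 := par C (show 1 ≤ Nat.nth (sw C) (m - 1) by omega)
        rw [Nat.count_nth_succ (hcard (m - 1) (by omega)), Nat.sub_add_cancel h0] at h4
        rw [h4]
        exact ⟨fun h5 => ⟨finite_lt _, h5⟩, fun h5 => h5.2⟩

theorem gam_fin_not {C : Set ℕ} (hC : C.Finite) (h1 : 1 ∉ C) (X : ℕ → Prop) :
    Gam C X ↔ DiffS2 (switches C) X := by
  rw [gam_fin hC]
  unfold DiffS2
  refine exists_congr fun B => and_congr_right fun _ => and_congr_right fun _ =>
    forall_congr' fun x => ?_
  rw [← Nat.not_even_iff_odd]
  tauto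

theorem gam_fin_mem {C : Set ℕ} (hC : C.Finite) (h1 : 1 ∈ C) (X : ℕ → Prop) :
    Gam C X ↔ CoDiffS2 (switches C) X := by
  rw [gam_fin hC]
  unfold CoDiffS2 DiffS2
  refine exists_congr fun B => and_congr_right fun _ => and_congr_right fun _ =>
    forall_congr' fun x => ?_
  rw [← Nat.not_even_iff_odd]
  tauto

end Pool.Agent.Q206.ISC
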