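import Pool.Agent.Q206.ISC.Fin

/-!
Infinite sets `C`.
-/

namespace Pool.Agent.Q206.ISC

open Encodable Denumerable Pool.Agent.Helper446 Pool.Agent.Helper446.RE
open Pool.Agent.Helper446.CB

theorem not_sub_zero_of_inf {C : Set ℕ} (hC : C.Infinite) : ¬ C ⊆ {0} := fun h =>
  hC ((Set.finite_singleton 0).subset h)

/-- `C` reduces to `I_C`. -/
theorem red_self {π : ℕ → List ℕ → Bool} (hπ : EffEnum π) (C : Set ℕ) :
    ManyOneReducible (fun n : ℕ => n ∈ C) (I π C) := by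
  obtain ⟨f, hf, hf'⟩ := key hπ (B := fun q => q.1 + 1 < q.2)
    (Sig.of_cp (RE.cp_lt (by fun_prop) (by fun_prop)))
  obtain ⟨e0, he0⟩ := hπ.surj (fun _ => false) (Primrec.const false)
  have hempty : P π e0 ∩ Cantor = ∅ := by
    ext X
    simp only [Set.mem_inter_iff, Set.mem_empty_iff_false, iff_false, not_and]
    intro h
    have := mem_P.1 h 0
    rw [he0] at this
    exact absurd this (by simp)
  refine ⟨fun x => cond (decide (x = 0)) e0 (f x), ?_, fun x => ?_⟩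
  · exact ccond (cdecide (RE.cp_eq (by fun_prop) (by fun_prop))) (by fun_prop) hf
  · rcases Nat.eq_zero_or_pos x with rfl | hx
    · unfold I
      simp only [decide_true, cond_true]
      rw [hempty, Set.ncard_empty]
      simp
    · have h0 : decide (x = 0) = false := by simp; omega
      show x ∈ C ↔ I π C (cond (decide (x = 0)) e0 (f x))
      rw [h0, cond_false]
      obtain ⟨h1, h2⟩ := fin_of_encard (hf' x)
      have hset : {k | k + 1 < x} = {k | k < x - 1} := by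
        ext k
        simp only [Set.mem_ofPred_eq]
        omega
      dsimp only at h1 h2
      rw [hset] at h1 h2
      have h3 := h2 (finite_lt _)
      rw [ncard_lt, Nat.sub_add_cancel hx] at h3
      unfold I
      rw [h3]
      exact ⟨fun h => ⟨h1.2 (finite_lt _), h⟩, fun h => h.2⟩

theorem pi_of_red {n : ℕ} {X Y : ℕ → Prop} (h : ManyOneReducible X Y) (hY : Pi n Y) :
    Pi n X := by
  obtain ⟨f, hf, hfXY⟩ := h
  exact (hY.comp hf).of_iff fun x => (hfXY x).symm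

/-- exact number of members -/
theorem eq_sig3 {π : ℕ → List ℕ → Bool} (hπ : EffEnum π) :
    Sig 3 (fun p : ℕ × ℕ => (P π p.2 ∩ Cantor).Finite ∧ (P π p.2 ∩ Cantor).ncard = p.1) ∧
    Pi 3 (fun p : ℕ × ℕ => (P π p.2 ∩ Cantor).Finite ∧ (P π p.2 ∩ Cantor).ncard = p.1) := by
  have h1 := ge_sig hπ
  have h2 := h1.comp (f := fun p : ℕ × ℕ => (p.1 + 1, p.2)) (by fun_prop)
  have hiff : ∀ p : ℕ × ℕ, ((p.1 : ℕ∞) ≤ (P π p.2 ∩ Cantor).encard ∧
      ¬ ((p.1 + 1 : ℕ) : ℕ∞) ≤ (P π p.2 ∩ Cantor).encard) ↔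
      ((P π p.2 ∩ Cantor).Finite ∧ (P π p.2 ∩ Cantor).ncard = p.1) := by
    intro p
    constructor
    · rintro ⟨h3, h4⟩
      have hf : (P π p.2 ∩ Cantor).Finite := by
        by_contra hinf
        apply h4
        rw [Set.Infinite.encard_eq hinf]
        exact le_top
      refine ⟨hf, ?_⟩
      rw [← hf.cast_ncard_eq, Nat.cast_le] at h3 h4
      omega
    · rintro ⟨hf, h3⟩
      rw [← hf.cast_ncard_eq, Nat.cast_le, Nat.cast_le]
      omega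
  exact ⟨(Sig.and h1.succ (Pi.sig (Sig.not h2))).of_iff hiff,
    (Pi.and (Sig.pi h1) (Pi.succ (Sig.not h2))).of_iff hiff⟩

theorem fin_sig3 {π : ℕ → List ℕ → Bool} (hπ : EffEnum π) :
    Sig 3 (fun e : ℕ => (P π e ∩ Cantor).Finite) := by
  refine Sig.of_iff (p := fun e => ∃ n, (P π e ∩ Cantor).Finite ∧ (P π e ∩ Cantor).ncard = n) ?_ ?_
  · refine Sig.exN (n := 2) (p := fun (e n : ℕ) =>
      (P π e ∩ Cantor).Finite ∧ (P π e ∩ Cantor).ncard = n) ?_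
    exact (eq_sig3 hπ).1.comp (f := fun q : ℕ × ℕ => (q.2, q.1)) (by fun_prop)
  · intro e
    exact ⟨fun ⟨n, h⟩ => h.1, fun h => ⟨_, h, rfl⟩⟩

theorem sig_up {π : ℕ → List ℕ → Bool} (hπ : EffEnum π) {C : Set ℕ} {n : ℕ} (hn : 3 ≤ n)
    (hC : Sig n fun m : ℕ => m ∈ C) : Sig n (I π C) := by
  obtain ⟨n, rfl⟩ : ∃ k, n = k + 1 := ⟨n - 1, by omega⟩
  refine Sig.of_iff (p := fun e => ∃ m, ((P π e ∩ Cantor).Finite ∧
    (P π e ∩ Cantor).ncard = m) ∧ m ∈ C) ?_ ?_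
  · refine Sig.exN (n := n) (p := fun (e m : ℕ) =>
      ((P π e ∩ Cantor).Finite ∧ (P π e ∩ Cantor).ncard = m) ∧ m ∈ C) (Sig.and ?_ ?_)
    · exact Sig.mono hn ((eq_sig3 hπ).1.comp (f := fun q : ℕ × ℕ => (q.2, q.1)) (by fun_prop))
    · exact hC.comp (f := fun q : ℕ × ℕ => q.2) (by fun_prop)
  · intro e
    constructor
    · rintro ⟨m, ⟨h1, rfl⟩, h2⟩
      exact ⟨h1, h2⟩
    · rintro ⟨h1, h2⟩
      exact ⟨_, ⟨h1, rfl⟩, h2⟩

theorem pi_up {π : ℕ → List ℕ → Bool} (hπ : EffEnum π) {C : Set ℕ} {n : ℕ} (hn : 4 ≤ n)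
    (hC : Pi n fun m : ℕ => m ∈ C) : Pi n (I π C) := by
  obtain ⟨n, rfl⟩ : ∃ k, n = k + 1 := ⟨n - 1, by omega⟩
  refine Pi.of_iff (p := fun e => (P π e ∩ Cantor).Finite ∧ ∀ m, ((P π e ∩ Cantor).Finite ∧
    (P π e ∩ Cantor).ncard = m) → m ∈ C) ?_ ?_
  · refine Pi.and (Sig.toPi (by omega : 3 < n + 1) (fin_sig3 hπ)) ?_
    refine Pi.all (n := n) (p := fun (e m : ℕ) =>
      ((P π e ∩ Cantor).Finite ∧ (P π e ∩ Cantor).ncard = m) → m ∈ C) (Pi.imp ?_ ?_)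
    · exact Sig.mono (by omega) ((eq_sig3 hπ).1.comp (f := fun q : ℕ × ℕ => (q.2, q.1))
        (by fun_prop))
    · exact hC.comp (f := fun q : ℕ × ℕ => q.2) (by fun_prop)
  · intro e
    constructor
    · rintro ⟨h1, h2⟩
      exact ⟨h1, h2 _ ⟨h1, rfl⟩⟩
    · rintro ⟨h1, h2⟩
      refine ⟨h1, ?_⟩
      rintro m ⟨-, rfl⟩
      exact h2

theorem sig_iff {π : ℕ → List ℕ → Bool} (hπ : EffEnum π) (C : Set ℕ) {n : ℕ} (hn : 3 ≤ n) :
    Sig n (I π C) ↔ Sig n fun m : ℕ => m ∈ C :=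
  ⟨sig_of_red (red_self hπ C), sig_up hπ hn⟩

theorem pi_iff {π : ℕ → List ℕ → Bool} (hπ : EffEnum π) (C : Set ℕ) {n : ℕ} (hn : 4 ≤ n) :
    Pi n (I π C) ↔ Pi n fun m : ℕ => m ∈ C :=
  ⟨pi_of_red (red_self hπ C), pi_up hπ hn⟩

theorem inf_iff {π : ℕ → List ℕ → Bool} (hπ : EffEnum π) {C : Set ℕ} (hC : C.Infinite) :
    Complete (Sig 3) (I π C) ↔ (Sig 3 fun m : ℕ => m ∈ C) ∧ Sel C := by
  constructor
  · rintro ⟨h1, h2⟩
    refine ⟨(sig_iff hπ C (le_refl 3)).1 h1, sel_of_hard fun X hX => ?_⟩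
    exact gam_of_red (h2 X hX) (gam_upper hπ (not_sub_zero_of_inf hC))
  · rintro ⟨h1, h2⟩
    exact ⟨(sig_iff hπ C (le_refl 3)).2 h1, fun X hX => gam_hard hπ (gam_of_sel h2 hX)⟩

theorem inf_two {π : ℕ → List ℕ → Bool} (hπ : EffEnum π) {C : Set ℕ} (hC : C.Infinite)
    (h : (Sig 2 fun m : ℕ => m ∈ C) ∨ Pi 2 fun m : ℕ => m ∈ C) : Complete (Sig 3) (I π C) := by
  rw [inf_iff hπ hC]
  rcases h with h | h
  · exact ⟨h.succ, sel_of_sig2 hC h⟩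
  · exact ⟨h.sig, sel_of_pi2 hC h⟩

/-- Adding an infinite subset with a selector is enough. -/
theorem sel_mono_set {C D : Set ℕ} (h : D ⊆ C) (hD : Sel D) : Sel C := by
  obtain ⟨v, hv, hS⟩ := hD
  exact ⟨v, fun k => ⟨(hv k).1, h (hv k).2⟩, hS⟩

/-- There is an infinite `C` with `I_C` in `Δ⁰₃`. -/
theorem exists_delta {π : ℕ → List ℕ → Bool} (hπ : EffEnum π) :
    ∃ C : Set ℕ, C.Infinite ∧ Sig 3 (I π C) ∧ Pi 3 (I π C) := by
  classical
  -- `E n e`: exactly `n` members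
  let E : ℕ → ℕ → Prop := fun n e => (P π e ∩ Cantor).Finite ∧ (P π e ∩ Cantor).ncard = n
  have hE := eq_sig3 hπ
  have hEu : ∀ n n' e, E n e → E n' e → n = n' := by
    rintro n n' e ⟨-, rfl⟩ ⟨-, rfl⟩
    rfl
  -- `c i` is the least `n` in `[i², i²+i]` with no `e < i` having exactly `n` members
  have hex : ∀ i, ∃ n, i * i ≤ n ∧ ∀ e < i, ¬ E n e := by
    intro i
    have hfin : {n | ∃ e < i, E n e}.Finite := by
      have : {n | ∃ e < i, E n e} ⊆ (fun e => (P π e ∩ Cantor).ncard) '' {e | e < i} := by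
        rintro n ⟨e, he, -, rfl⟩
        exact ⟨e, he, rfl⟩
      exact (((finite_lt i).image _)).subset this
    obtain ⟨M, hM⟩ := hfin.bddAbove
    refine ⟨max (i * i) (M + 1), le_max_left _ _, fun e he hEe => ?_⟩
    have := hM (show max (i * i) (M + 1) ∈ {n | ∃ e < i, E n e} from ⟨e, he, hEe⟩)
    omega
  let c : ℕ → ℕ := fun i => Nat.find (hex i)
  have hc1 : ∀ i, i * i ≤ c i := fun i => (Nat.find_spec (hex i)).1
  have hc2 : ∀ i, ∀ e < i, ¬ E (c i) e := fun i => (Nat.find_spec (hex i)).2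
  have hc3 : ∀ i n, n < c i → i * i ≤ n → ∃ e < i, E n e := by
    intro i n hn hin
    have := Nat.find_min (hex i) hn
    push Not at this
    exact this hin
  have hc4 : ∀ i, c i ≤ i * i + i := by
    intro i
    by_contra hlt
    -- `i+1` values for `i` indices
    have h1 : ∀ j : Fin (i + 1), ∃ e, e < i ∧ E (i * i + j) e := by
      intro j
      obtain ⟨e, he, hEe⟩ := hc3 i (i * i + j) (by have := j.2; omega) (by omega)
      exact ⟨e, he, hEe⟩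
    choose g hg1 hg2 using h1
    have hinj : Function.Injective fun j : Fin (i + 1) => (⟨g j, hg1 j⟩ : Fin i) := by
      intro j j' hjj
      have h2 : g j = g j' := congrArg Fin.val hjj
      have h3 := hg2 j
      rw [h2] at h3
      have := hEu _ _ _ h3 (hg2 j')
      exact Fin.ext (by omega)
    have := Fintype.card_le_of_injective _ hinj
    simp at this
  let C : Set ℕ := {n | ∃ i, n = c i}
  have hCmem : ∀ i n, n = c i ↔ (i * i ≤ n ∧ (∀ e < i, ¬ E n e)) ∧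
      ∀ n' < n, i * i ≤ n' → ∃ e < i, E n' e := by
    intro i n
    constructor
    · rintro rfl
      exact ⟨⟨hc1 i, hc2 i⟩, fun n' hn' h => hc3 i n' hn' h⟩
    · rintro ⟨⟨h1, h2⟩, h3⟩
      refine le_antisymm ?_ (Nat.find_le ⟨h1, h2⟩)
      by_contra hlt
      obtain ⟨e, he, hEe⟩ := h3 (c i) (by omega) (hc1 i)
      exact hc2 i e he hEe
  have hIC : ∀ e, (∃ i < e + 1, ∃ n < i * i + i + 1, ((((i * i ≤ n ∧ (∀ e < i, ¬ E n e)) ∧
      ∀ n' < n, i * i ≤ n' → ∃ e < i, E n' e)) ∧ E n e)) ↔ I π C e := by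
    intro e
    constructor
    · rintro ⟨i, -, n, -, h1, h2⟩
      exact ⟨h2.1, i, by rw [h2.2]; exact (hCmem i n).2 h1⟩
    · rintro ⟨h1, i, h2⟩
      have hEe : E (c i) e := ⟨h1, h2⟩
      refine ⟨i, ?_, c i, ?_, (hCmem i _).1 rfl, hEe⟩
      · by_contra hlt
        exact hc2 i e (by omega) hEe
      · have := hc4 i
        omega
  refine ⟨C, ?_, ?_, ?_⟩
  · refine Set.infinite_of_not_bddAbove ?_
    rintro ⟨M, hM⟩
    have h1 := hM (show c (M + 1) ∈ C from ⟨_, rfl⟩)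
    have h2 := hc1 (M + 1)
    nlinarith
  · refine Sig.of_iff (p := fun e => ∃ i < e + 1, ∃ n < i * i + i + 1,
      ((((i * i ≤ n ∧ (∀ e < i, ¬ E n e)) ∧
      ∀ n' < n, i * i ≤ n' → ∃ e < i, E n' e)) ∧ E n e)) ?_ hIC
    refine Sig.ex_lt (p := fun (e i : ℕ) => ∃ n < i * i + i + 1,
      ((((i * i ≤ n ∧ (∀ e < i, ¬ E n e)) ∧
      ∀ n' < n, i * i ≤ n' → ∃ e < i, E n' e)) ∧ E n e)) ?_ (by fun_prop)
    refine Sig.ex_lt (p := fun (q : ℕ × ℕ) (n : ℕ) =>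
      ((((q.2 * q.2 ≤ n ∧ (∀ e < q.2, ¬ E n e)) ∧
      ∀ n' < n, q.2 * q.2 ≤ n' → ∃ e < q.2, E n' e)) ∧ E n q.1)) ?_ (by fun_prop)
    refine Sig.and (Sig.and (Sig.and ?_ ?_) ?_) ?_
    · exact Sig.of_cp (RE.cp_le (by fun_prop) (by fun_prop))
    · refine Sig.all_lt (p := fun (r : (ℕ × ℕ) × ℕ) (e : ℕ) => ¬ E r.2 e) ?_ (by fun_prop)
      exact hE.2.comp (f := fun r : ((ℕ × ℕ) × ℕ) × ℕ => (r.1.2, r.2)) (by fun_prop)
    · refine Sig.all_lt (p := fun (r : (ℕ × ℕ) × ℕ) (n' : ℕ) => r.1.2 * r.1.2 ≤ n' →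
        ∃ e < r.1.2, E n' e) ?_ (by fun_prop)
      refine Sig.imp (Pi.of_cp (RE.cp_le (by fun_prop) (by fun_prop))) ?_
      refine Sig.ex_lt (p := fun (r : ((ℕ × ℕ) × ℕ) × ℕ) (e : ℕ) => E r.2 e) ?_ (by fun_prop)
      exact hE.1.comp (f := fun r : (((ℕ × ℕ) × ℕ) × ℕ) × ℕ => (r.1.2, r.2)) (by fun_prop)
    · exact hE.1.comp (f := fun r : (ℕ × ℕ) × ℕ => (r.2, r.1.1)) (by fun_prop)
  · refine Pi.of_iff (p := fun e => ∃ i < e + 1, ∃ n < i * i + i + 1,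
      ((((i * i ≤ n ∧ (∀ e < i, ¬ E n e)) ∧
      ∀ n' < n, i * i ≤ n' → ∃ e < i, E n' e)) ∧ E n e)) ?_ hIC
    refine Pi.ex_lt (p := fun (e i : ℕ) => ∃ n < i * i + i + 1,
      ((((i * i ≤ n ∧ (∀ e < i, ¬ E n e)) ∧
      ∀ n' < n, i * i ≤ n' → ∃ e < i, E n' e)) ∧ E n e)) ?_ (by fun_prop)
    refine Pi.ex_lt (p := fun (q : ℕ × ℕ) (n : ℕ) =>
      ((((q.2 * q.2 ≤ n ∧ (∀ e < q.2, ¬ E n e)) ∧
      ∀ n' < n, q.2 * q.2 ≤ n' → ∃ e < q.2, E n' e)) ∧ E n q.1)) ?_ (by fun_prop)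
    refine Pi.and (Pi.and (Pi.and ?_ ?_) ?_) ?_
    · exact Pi.of_cp (RE.cp_le (by fun_prop) (by fun_prop))
    · refine Pi.all_lt (p := fun (r : (ℕ × ℕ) × ℕ) (e : ℕ) => ¬ E r.2 e) ?_ (by fun_prop)
      exact Sig.not (hE.1.comp (f := fun r : ((ℕ × ℕ) × ℕ) × ℕ => (r.1.2, r.2)) (by fun_prop))
    · refine Pi.all_lt (p := fun (r : (ℕ × ℕ) × ℕ) (n' : ℕ) => r.1.2 * r.1.2 ≤ n' →
        ∃ e < r.1.2, E n' e) ?_ (by fun_prop)
      refine Pi.imp (Sig.of_cp (RE.cp_le (by fun_prop) (by fun_prop))) ?_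
      refine Pi.ex_lt (p := fun (r : ((ℕ × ℕ) × ℕ) × ℕ) (e : ℕ) => E r.2 e) ?_ (by fun_prop)
      exact hE.2.comp (f := fun r : (((ℕ × ℕ) × ℕ) × ℕ) × ℕ => (r.1.2, r.2)) (by fun_prop)
    · exact hE.2.comp (f := fun r : (ℕ × ℕ) × ℕ => (r.2, r.1.1)) (by fun_prop)

end Pool.Agent.Q206.ISC
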