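import Pool.Agent.Q206.ISC.Defs

/-!
Hardness: for every `Σ⁰₂` predicate `B(k,x)` there is a computable `f` such that the number of
members of `P_{f(x)}` is one more than the number of `k` with `B(k,x)`.
-/

namespace Pool.Agent.Q206.ISC

open Encodable Denumerable Pool.Agent.Helper446 Pool.Agent.Helper446.RE
open Pool.Agent.Helper446.CB
open Nat.Partrec (Code)
open Nat.Partrec.Code (eval evaln)

theorem pre_length (X : ℕ → ℕ) (n : ℕ) : (pre X n).length = n := by simp [pre]

theorem pre_getElem (X : ℕ → ℕ) (n i : ℕ) (h : i < (pre X n).length) : (pre X n)[i] = X i := by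
  simp [pre]

theorem pre_take (X : ℕ → ℕ) (n m : ℕ) (h : m ≤ n) : (pre X n).take m = pre X m := by
  apply List.ext_getElem
  · simp [pre, h]
  · intro i h1 h2
    simp [pre]

theorem pre_congr {X Y : ℕ → ℕ} {n : ℕ} (h : ∀ i < n, X i = Y i) : pre X n = pre Y n := by
  unfold pre
  apply List.map_congr_left
  intro i hi
  exact h i (List.mem_range.1 hi)

theorem pre_inj {X Y : ℕ → ℕ} {n : ℕ} (h : pre X n = pre Y n) : ∀ i < n, X i = Y i := by
  intro i hi
  have := congrArg (fun l => l[i]?) h
  simpa [pre, hi] using this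

theorem mem_P {π : ℕ → List ℕ → Bool} {e : ℕ} {X : ℕ → ℕ} :
    X ∈ P π e ↔ ∀ n, π e (pre X n) = true := by
  constructor
  · intro h n
    exact h n _ (List.prefix_refl _)
  · intro h n τ hτ
    have h1 : τ = (pre X n).take τ.length := (List.prefix_iff_eq_take.1 hτ)
    have h2 : τ.length ≤ n := by simpa [pre_length] using hτ.length_le
    rw [h1, pre_take X n _ h2]
    exact h _

/-- the sequence with a single `1` at place `i` -/
def dl (i : ℕ) : ℕ → ℕ := fun j => bif j == i then 1 else 0

theorem dl_self (i : ℕ) : dl i i = 1 := by simp [dl]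
theorem dl_ne {i j : ℕ} (h : j ≠ i) : dl i j = 0 := by
  have h1 : (j == i) = false := beq_eq_false_iff_ne.2 h
  simp [dl, h1]

theorem dl_inj : Function.Injective dl := by
  intro i j h
  by_contra hne
  have := congrFun h i
  rw [dl_self, dl_ne hne] at this
  omega

/-- the tree -/
def tr (c : Code) (x : ℕ) (σ : List ℕ) : Bool :=
  (decide (σ = (List.range σ.length).map (dl (σ.findIdx (fun a => !(a == 0)))))) &&
    ((σ.findIdx (fun a => !(a == 0)) == σ.length) ||
      (evaln σ.length c (Nat.pair x (σ.findIdx (fun a => !(a == 0))))).isNone)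

theorem fidx_primrec : Primrec fun σ : List ℕ => σ.findIdx (fun a => !(a == 0)) := by
  refine Primrec.list_findIdx Primrec.id ?_
  exact (Primrec.not.comp (Primrec.beq.comp (Primrec.snd (α := List ℕ) (β := ℕ))
    (Primrec.const 0))).to₂

theorem tr_primrec (c : Code) : Primrec fun p : ℕ × List ℕ => tr c p.1 p.2 := by
  have hf : Primrec fun p : ℕ × List ℕ => p.2.findIdx (fun a => !(a == 0)) :=
    fidx_primrec.comp Primrec.snd
  have hl : Primrec fun p : ℕ × List ℕ => p.2.length := Primrec.list_length.comp Primrec.snd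
  have h1 : Primrec₂ fun (p : ℕ × List ℕ) (j : ℕ) =>
      (cond (j == p.2.findIdx (fun a => !(a == 0))) 1 0 : ℕ) :=
    (Primrec.cond (Primrec.beq.comp (Primrec.snd (α := ℕ × List ℕ) (β := ℕ))
      (hf.comp Primrec.fst)) (Primrec.const 1) (Primrec.const 0)).to₂
  have h2 : Primrec fun p : ℕ × List ℕ => (List.range p.2.length).map
      (dl (p.2.findIdx (fun a => !(a == 0)))) :=
    Primrec.list_map (Primrec.list_range.comp hl) h1
  have h3 : Primrec fun p : ℕ × List ℕ => decide (p.2 = (List.range p.2.length).map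
      (dl (p.2.findIdx (fun a => !(a == 0))))) :=
    Primrec.eq.decide.comp Primrec.snd h2
  have h4 : Primrec fun p : ℕ × List ℕ => p.2.findIdx (fun a => !(a == 0)) == p.2.length :=
    Primrec.beq.comp hf hl
  have h5 : Primrec fun p : ℕ × List ℕ =>
      evaln p.2.length c (Nat.pair p.1 (p.2.findIdx (fun a => !(a == 0)))) :=
    Nat.Partrec.Code.primrec_evaln.comp ((hl.pair (Primrec.const c)).pair
      (Primrec₂.natPair.comp Primrec.fst hf))
  have h6 : Primrec fun p : ℕ × List ℕ =>
      (evaln p.2.length c (Nat.pair p.1 (p.2.findIdx (fun a => !(a == 0))))).isNone := by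
    refine (Primrec.not.comp (Primrec.option_isSome.comp h5)).of_eq fun p => ?_
    cases evaln p.2.length c (Nat.pair p.1 (p.2.findIdx (fun a => !(a == 0)))) <;> rfl
  exact Primrec.and.comp h3 (Primrec.or.comp h4 h6)

theorem fidx_pre_zero {X : ℕ → ℕ} {n : ℕ} (h : ∀ i < n, X i = 0) :
    (pre X n).findIdx (fun a => !(a == 0)) = n := by
  rw [List.findIdx_eq_length_of_false, pre_length]
  intro a ha
  simp only [pre, List.mem_map, List.mem_range] at ha
  obtain ⟨i, hi, rfl⟩ := ha
  simp [h i hi]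

theorem fidx_pre_pos {X : ℕ → ℕ} {n i : ℕ} (hi : i < n) (h : ∀ j < i, X j = 0) (h1 : X i ≠ 0) :
    (pre X n).findIdx (fun a => !(a == 0)) = i := by
  rw [List.findIdx_eq (by rw [pre_length]; exact hi)]
  refine ⟨by simp [pre_getElem, h1], fun j hj => ?_⟩
  rw [pre_getElem]
  simp [h j hj]

theorem tr_zero (c : Code) (x n : ℕ) : tr c x (pre (fun _ => 0) n) = true := by
  have h1 := fidx_pre_zero (X := fun _ => 0) (n := n) fun _ _ => rfl
  unfold tr
  rw [h1, pre_length]
  have : pre (fun _ => 0) n = (List.range n).map (dl n) := by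
    unfold pre
    apply List.map_congr_left
    intro i hi
    rw [dl_ne (by have := List.mem_range.1 hi; omega)]
  rw [← this]
  simp

theorem tr_dl {c : Code} {x i : ℕ} (h : ¬ (eval c (Nat.pair x i)).Dom) (n : ℕ) :
    tr c x (pre (dl i) n) = true := by
  by_cases hin : i < n
  · have h1 := fidx_pre_pos (X := dl i) hin (fun j hj => dl_ne (by omega)) (by simp [dl_self])
    unfold tr
    rw [h1, pre_length]
    have h2 : evaln n c (Nat.pair x i) = none := by
      rcases he : evaln n c (Nat.pair x i) with _ | v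
      · rfl
      · exact absurd (Part.dom_iff_mem.2 ⟨v, Nat.Partrec.Code.evaln_sound he⟩) h
    rw [h2]
    simp [pre]
  · have : pre (dl i) n = pre (fun _ => 0) n := pre_congr fun j hj => dl_ne (by omega)
    rw [this]
    exact tr_zero c x n

theorem of_tr {c : Code} {x : ℕ} {X : ℕ → ℕ} (h : ∀ n, tr c x (pre X n) = true) :
    X = (fun _ => 0) ∨ ∃ i, ¬ (eval c (Nat.pair x i)).Dom ∧ X = dl i := by
  by_cases h0 : ∀ j, X j = 0
  · exact Or.inl (funext h0)
  right
  push Not at h0
  classical
  set i := Nat.find h0 with hi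
  have hXi : X i ≠ 0 := Nat.find_spec h0
  have hlt : ∀ j < i, X j = 0 := fun j hj => by
    have := Nat.find_min h0 hj
    simpa using this
  refine ⟨i, ?_, ?_⟩
  · intro hd
    obtain ⟨v, hv⟩ := Part.dom_iff_mem.1 hd
    obtain ⟨k, hk⟩ := Nat.Partrec.Code.evaln_complete.1 hv
    have h1 := h (k + i + 1)
    unfold tr at h1
    rw [fidx_pre_pos (X := X) (n := k + i + 1) (by omega) hlt hXi, pre_length] at h1
    have h2 := Nat.Partrec.Code.evaln_mono (show k ≤ k + i + 1 by omega) hk
    rw [Option.mem_def] at h2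
    rw [h2] at h1
    simp at h1
    omega
  · funext j
    have h1 := h (j + i + 1)
    unfold tr at h1
    rw [fidx_pre_pos (X := X) (n := j + i + 1) (by omega) hlt hXi, pre_length] at h1
    simp only [Bool.and_eq_true, decide_eq_true_eq] at h1
    exact pre_inj (X := X) (Y := dl i) h1.1 j (by omega)

theorem exists_code {p : ℕ → Prop} (hp : REPred p) : ∃ c : Code, ∀ n, p n ↔ (eval c n).Dom := by
  have h1 : Partrec fun n : ℕ => (Part.assert (p n) fun _ => Part.some ()).map fun _ => (0 : ℕ) :=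
    Partrec.map hp (Computable.const 0).to₂
  obtain ⟨c, hc⟩ := Nat.Partrec.Code.exists_code.1 (Partrec.nat_iff.1 h1)
  refine ⟨c, fun n => ?_⟩
  rw [hc]
  constructor
  · intro h
    exact ⟨h, trivial⟩
  · rintro ⟨h, -⟩
    exact h

/-- The key lemma. -/
theorem key {π : ℕ → List ℕ → Bool} (hπ : EffEnum π) {B : ℕ × ℕ → Prop} (hB : Sig 2 B) :
    ∃ f : ℕ → ℕ, Computable f ∧
      ∀ x, (P π (f x) ∩ Cantor).encard = {k | B (k, x)}.encard + 1 := by
  obtain ⟨Q, hQ, hBQ, huniq⟩ := Sig.unique_witness (k := 0) hB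
  have hQ' : REPred fun m : ℕ => ¬ Q ((m.unpair.2.unpair.1, m.unpair.1), m.unpair.2.unpair.2) := by
    have := pi_one.1 hQ
    exact RE.comp this (f := fun m : ℕ =>
      ((m.unpair.2.unpair.1, m.unpair.1), m.unpair.2.unpair.2)) (by fun_prop)
  obtain ⟨c, hc⟩ := exists_code hQ'
  obtain ⟨f, hf, hf'⟩ := hπ.smn (tr c) (tr_primrec c)
  refine ⟨f, hf, fun x => ?_⟩
  have hset : P π (f x) ∩ Cantor =
      insert (fun _ => 0) (dl '' {n | Q ((n.unpair.1, x), n.unpair.2)}) := by
    ext X
    rw [Set.mem_inter_iff, mem_P, hf' x]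
    constructor
    · rintro ⟨h, -⟩
      rcases of_tr h with h0 | ⟨i, hi, rfl⟩
      · exact Or.inl h0
      · right
        refine ⟨i, ?_, rfl⟩
        have := (hc (Nat.pair x i)).not.2 hi
        simpa using this
    · rintro (h0 | ⟨i, hi, rfl⟩)
      · subst h0
        exact ⟨fun n => tr_zero c x n, fun n => by simp⟩
      · refine ⟨fun n => tr_dl ?_ n, fun n => ?_⟩
        · rw [← hc (Nat.pair x i)]
          simpa using hi
        · unfold dl
          cases n == i <;> simp
  have hnot : (fun _ : ℕ => 0) ∉ dl '' {n | Q ((n.unpair.1, x), n.unpair.2)} := by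
    rintro ⟨i, -, hi⟩
    have := congrFun hi i
    rw [dl_self] at this
    omega
  rw [hset, Set.encard_insert_of_notMem hnot, dl_inj.encard_image]
  congr 1
  have hinj : Set.InjOn (fun n : ℕ => n.unpair.1) {n | Q ((n.unpair.1, x), n.unpair.2)} := by
    intro n hn m hm hnm
    have hn' : Q ((n.unpair.1, x), n.unpair.2) := hn
    have hm' : Q ((m.unpair.1, x), m.unpair.2) := hm
    have hnm' : n.unpair.1 = m.unpair.1 := hnm
    rw [← hnm'] at hm'
    have := huniq _ _ _ hn' hm'
    rw [← Nat.pair_unpair n, ← Nat.pair_unpair m, hnm', this]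
  rw [← hinj.encard_image]
  congr 1
  ext k
  constructor
  · rintro ⟨n, hn, rfl⟩
    exact (hBQ _).2 ⟨_, hn⟩
  · intro hk
    obtain ⟨w, hw⟩ := (hBQ _).1 hk
    refine ⟨Nat.pair k w, ?_, by simp⟩
    show Q (((Nat.pair k w).unpair.1, x), (Nat.pair k w).unpair.2)
    simpa using hw

theorem fin_of_encard {α β : Type*} {s : Set α} {t : Set β} (h : s.encard = t.encard + 1) :
    (s.Finite ↔ t.Finite) ∧ (t.Finite → s.ncard = t.ncard + 1) := by
  have h1 : s.Finite ↔ t.Finite := by
    rw [← Set.encard_lt_top_iff, ← Set.encard_lt_top_iff, h]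
    constructor
    · intro h2
      exact lt_of_le_of_lt le_self_add h2
    · intro h2
      exact WithTop.add_lt_top.2 ⟨h2, by exact WithTop.coe_lt_top 1⟩
  refine ⟨h1, fun ht => ?_⟩
  have hs := h1.2 ht
  rw [← hs.cast_ncard_eq, ← ht.cast_ncard_eq] at h
  exact_mod_cast h

theorem gam_hard {π : ℕ → List ℕ → Bool} (hπ : EffEnum π) {C : Set ℕ} {X : ℕ → Prop}
    (hX : Gam C X) : ManyOneReducible X (I π C) := by
  obtain ⟨B, hB, -, hX⟩ := hX
  obtain ⟨f, hf, hf'⟩ := key hπ hB
  refine ⟨f, hf, fun x => ?_⟩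
  rw [hX x]
  obtain ⟨h1, h2⟩ := fin_of_encard (hf' x)
  unfold I
  constructor
  · rintro ⟨h3, h4⟩
    exact ⟨h1.2 h3, by rw [h2 h3]; exact h4⟩
  · rintro ⟨h3, h4⟩
    have h5 := h1.1 h3
    exact ⟨h5, by rw [← h2 h5]; exact h4⟩

/-- the whole tree as long as `x` has not been enumerated -/
theorem zero_hard {π : ℕ → List ℕ → Bool} (hπ : EffEnum π) {X : ℕ → Prop} (hX : Sig 1 X) :
    ManyOneReducible X (I π {0}) := by
  obtain ⟨c, hc⟩ := exists_code (sig_one.1 hX)
  have hprim : Primrec fun p : ℕ × List ℕ => (evaln p.2.length c p.1).isNone := by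
    have h1 : Primrec fun p : ℕ × List ℕ => evaln p.2.length c p.1 :=
      Nat.Partrec.Code.primrec_evaln.comp
        (((Primrec.list_length.comp Primrec.snd).pair (Primrec.const c)).pair Primrec.fst)
    refine (Primrec.not.comp (Primrec.option_isSome.comp h1)).of_eq fun p => ?_
    cases evaln p.2.length c p.1 <;> rfl
  obtain ⟨f, hf, hf'⟩ := hπ.smn (fun x σ => (evaln σ.length c x).isNone) hprim
  refine ⟨f, hf, fun x => ?_⟩
  rw [hc x]
  have hmem : ∀ Y, Y ∈ P π (f x) ↔ ∀ n, evaln n c x = none := by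
    intro Y
    rw [mem_P, hf' x]
    simp only [pre_length, Option.isNone_iff_eq_none]
  constructor
  · intro hd
    have he : P π (f x) ∩ Cantor = ∅ := by
      ext Y
      simp only [Set.mem_inter_iff, Set.mem_empty_iff_false, iff_false, not_and]
      intro hY
      rw [hmem] at hY
      obtain ⟨v, hv⟩ := Part.dom_iff_mem.1 hd
      obtain ⟨k, hk⟩ := Nat.Partrec.Code.evaln_complete.1 hv
      rw [Option.mem_def, hY k] at hk
      exact absurd hk (by simp)
    unfold I
    rw [he]
    simp
  · rintro ⟨h1, h2⟩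
    by_contra hd
    have hall : ∀ n, evaln n c x = none := by
      intro n
      rcases he : evaln n c x with _ | v
      · rfl
      · exact absurd (Part.dom_iff_mem.2 ⟨v, Nat.Partrec.Code.evaln_sound he⟩) hd
    have h3 : P π (f x) ∩ Cantor = ∅ := (Set.ncard_eq_zero h1).1 h2
    have h4 : (fun _ => 0) ∈ P π (f x) ∩ Cantor := ⟨(hmem _).2 hall, fun n => by simp⟩
    rw [h3] at h4
    exact h4

end Pool.Agent.Q206.ISC
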