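import Pool.Agent.Q206.ISC.Key

/-!
Upper bounds: `σ` is an initial segment of a member of `P_e ∩ 2^ω` is a `Π⁰₁` relation, `P_e ∩ 2^ω`
has at least `m` members is a `Σ⁰₂` relation.
-/

namespace Pool.Agent.Q206.ISC

open Encodable Denumerable Pool.Agent.Helper446 Pool.Agent.Helper446.RE
open Pool.Agent.Helper446.CB

section basic

variable {α β γ : Type} [Primcodable α] [Primcodable β] [Primcodable γ]

theorem cmap {l : α → List β} {g : α → β → γ} (hl : Computable l)
    (hg : Computable fun p : α × β => g p.1 p.2) : Computable fun a => (l a).map (g a) := by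
  have h1 := list_foldl (f := l) (g := fun _ => ([] : List γ))
    (h := fun a (p : List γ × β) => p.1 ++ [g a p.2]) hl (Computable.const []) (by
      unfold Computable₂
      have h2 : Computable fun q : α × (List γ × β) => g q.1 q.2.2 :=
        hg.comp (f := fun p : α × β => g p.1 p.2) (g := fun q : α × (List γ × β) => (q.1, q.2.2))
          (by fun_prop)
      exact cappend (by fun_prop) (ccons h2 (cconst [])))
  refine h1.of_eq fun a => ?_
  have : ∀ (l : List β) (acc : List γ), l.foldl (fun s b => s ++ [g a b]) acc = acc ++ l.map (g a) := by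
    intro l
    induction l with
    | nil => intro acc; simp
    | cons b l ih => intro acc; rw [List.foldl_cons, ih]; simp
  rw [this]; simp

theorem call {q : α → ℕ → Bool} (hq : Computable fun p : α × ℕ => q p.1 p.2) {f : α → ℕ}
    (hf : Computable f) : Computable fun a => allB (q a) (f a) := computable_allB hq hf

end basic

/-- all binary strings of length `n` -/
def bin : ℕ → List (List ℕ)
  | 0 => [[]]
  | n + 1 => (bin n).map (fun σ => 0 :: σ) ++ (bin n).map (fun σ => 1 :: σ)

theorem mem_bin {n : ℕ} {σ : List ℕ} : σ ∈ bin n ↔ σ.length = n ∧ ∀ a ∈ σ, a < 2 := by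
  induction n generalizing σ with
  | zero =>
    simp only [bin, List.mem_singleton]
    constructor
    · rintro rfl; simp
    · rintro ⟨h, -⟩; exact List.length_eq_zero_iff.1 h
  | succ n ih =>
    simp only [bin, List.mem_append, List.mem_map, ih]
    constructor
    · rintro (⟨τ, ⟨h1, h2⟩, rfl⟩ | ⟨τ, ⟨h1, h2⟩, rfl⟩)
      · refine ⟨by simp [h1], fun a ha => ?_⟩
        rcases List.mem_cons.1 ha with rfl | ha
        · omega
        · exact h2 a ha
      · refine ⟨by simp [h1], fun a ha => ?_⟩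
        rcases List.mem_cons.1 ha with rfl | ha
        · omega
        · exact h2 a ha
    · rintro ⟨h1, h2⟩
      cases σ with
      | nil => simp at h1
      | cons a τ =>
        have ha := h2 a (by simp)
        have hτ : τ.length = n ∧ ∀ a ∈ τ, a < 2 :=
          ⟨by simpa using h1, fun b hb => h2 b (List.mem_cons_of_mem _ hb)⟩
        rcases (by omega : a = 0 ∨ a = 1) with rfl | rfl
        · exact Or.inl ⟨τ, hτ, rfl⟩
        · exact Or.inr ⟨τ, hτ, rfl⟩

theorem bin_comp : Computable bin := by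
  have hstep : Computable fun p : ℕ × ℕ × List (List ℕ) =>
      p.2.2.map (fun σ => 0 :: σ) ++ p.2.2.map (fun σ => 1 :: σ) := by
    have h1 : Computable fun p : ℕ × ℕ × List (List ℕ) => p.2.2.map (fun σ => 0 :: σ) :=
      cmap (l := fun p : ℕ × ℕ × List (List ℕ) => p.2.2) (g := fun _ σ => 0 :: σ)
        (by fun_prop) (by fun_prop)
    have h2 : Computable fun p : ℕ × ℕ × List (List ℕ) => p.2.2.map (fun σ => 1 :: σ) :=
      cmap (l := fun p : ℕ × ℕ × List (List ℕ) => p.2.2) (g := fun _ σ => 1 :: σ)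
        (by fun_prop) (by fun_prop)
    fun_prop
  have h := Computable.nat_rec (f := fun n : ℕ => n) (g := fun _ : ℕ => [([] : List ℕ)])
    (h := fun _ (p : ℕ × List (List ℕ)) =>
      p.2.map (fun σ => 0 :: σ) ++ p.2.map (fun σ => 1 :: σ)) Computable.id
    (Computable.const _) hstep
  refine h.of_eq fun n => ?_
  induction n with
  | zero => rfl
  | succ n ih => simp only [bin]; rw [← ih]

theorem pre_mem_bin {X : ℕ → ℕ} (hX : X ∈ Cantor) (n : ℕ) : pre X n ∈ bin n := by
  rw [mem_bin]
  refine ⟨pre_length X n, fun a ha => ?_⟩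
  simp only [pre, List.mem_map, List.mem_range] at ha
  obtain ⟨i, -, rfl⟩ := ha
  exact hX i

/-- extendible to a member of the class -/
def Ext (π : ℕ → List ℕ → Bool) (e : ℕ) (σ : List ℕ) : Prop :=
  ∃ X ∈ P π e ∩ Cantor, pre X σ.length = σ

/-- the Boolean test: all prefixes have value 1 -/
def good (π : ℕ → List ℕ → Bool) (e : ℕ) (τ : List ℕ) : Bool :=
  allB (fun m => π e (τ.take m)) (τ.length + 1)

theorem good_iff {π : ℕ → List ℕ → Bool} {e : ℕ} {τ : List ℕ} :
    good π e τ = true ↔ ∀ m ≤ τ.length, π e (τ.take m) = true := by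
  unfold good
  rw [allB_iff]
  exact forall_congr' fun m => by rw [Nat.lt_succ_iff]

theorem ctake : Computable fun p : List ℕ × ℕ => p.1.take p.2 := by
  have h := list_foldl (f := fun p : List ℕ × ℕ => List.range (min p.2 p.1.length))
    (g := fun _ => ([] : List ℕ))
    (h := fun p (q : List ℕ × ℕ) => q.1 ++ [(p.1[q.2]?).getD 0])
    (by fun_prop) (Computable.const []) (by
      have h1 : Computable fun r : (List ℕ × ℕ) × (List ℕ × ℕ) => r.1.1[r.2.2]? := by fun_prop
      have h2 : Computable fun r : (List ℕ × ℕ) × (List ℕ × ℕ) => (r.1.1[r.2.2]?).getD 0 :=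
        (Primrec.option_getD.comp Primrec.id (Primrec.const 0)).to_comp.comp h1
      have h3 : Computable fun r : (List ℕ × ℕ) × (List ℕ × ℕ) =>
          r.2.1 ++ [(r.1.1[r.2.2]?).getD 0] := by fun_prop
      exact h3)
  refine h.of_eq fun p => ?_
  have hgen : ∀ (l : List ℕ) (acc : List ℕ),
      List.foldl (fun s b => s ++ [(p.1[b]?).getD 0]) acc l =
        acc ++ l.map fun b => (p.1[b]?).getD 0 := by
    intro l
    induction l with
    | nil => intro acc; simp
    | cons a l ih => intro acc; simp [ih]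
  have h4 : List.foldl (fun s b => s ++ [(p.1[b]?).getD 0]) ([] : List ℕ)
      (List.range (min p.2 p.1.length)) = p.1.take p.2 := by
    rw [hgen]
    apply List.ext_getElem
    · simp
    · intro i h1 h2
      have h5 : i < p.1.length := by
        simp at h1
        omega
      simp [h5]
  exact h4

@[fun_prop] theorem ctake' {α : Type} [Primcodable α] {f : α → List ℕ} {g : α → ℕ}
    (hf : Computable f) (hg : Computable g) : Computable fun a => (f a).take (g a) :=
  ctake.comp (hf.pair hg)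

theorem good_comp {π : ℕ → List ℕ → Bool} (hπ : EffEnum π) :
    Computable fun p : ℕ × List ℕ => good π p.1 p.2 := by
  unfold good
  refine call (q := fun (p : ℕ × List ℕ) m => π p.1 (p.2.take m)) ?_ (by fun_prop)
  exact hπ.comp.comp (g := fun q : (ℕ × List ℕ) × ℕ => (q.1.1, q.1.2.take q.2)) (by fun_prop)

/-- the sequence of a point of the Cantor space -/
def toN (b : ℕ → Bool) : ℕ → ℕ := fun i => (b i).toNat

theorem toN_mem (b : ℕ → Bool) : toN b ∈ Cantor := fun n => by
  unfold toN
  cases b n <;> simp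

theorem isClosed_of_dep {S : Set (ℕ → Bool)} {n : ℕ}
    (h : ∀ b b' : ℕ → Bool, (∀ i < n, b i = b' i) → b ∈ S → b' ∈ S) : IsClosed S := by
  rw [← isOpen_compl_iff, isOpen_iff_mem_nhds]
  intro b hb
  have hopen : IsOpen {b' : ℕ → Bool | ∀ i ∈ Finset.range n, b' i = b i} := by
    have : {b' : ℕ → Bool | ∀ i ∈ Finset.range n, b' i = b i} =
        ⋂ i ∈ Finset.range n, (fun b' : ℕ → Bool => b' i) ⁻¹' {b i} := by
      ext b'
      simp
    rw [this]
    refine isOpen_biInter_finset fun i _ => ?_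
    exact (isOpen_discrete _).preimage (continuous_apply i)
  refine Filter.mem_of_superset (hopen.mem_nhds fun i _ => rfl) ?_
  intro b' hb' hS
  exact hb (h b' b (fun i hi => hb' i (Finset.mem_range.2 hi)) hS)

/-- König's lemma. -/
theorem ext_iff {π : ℕ → List ℕ → Bool} {e : ℕ} {σ : List ℕ} :
    Ext π e σ ↔ ∀ n, ∃ τ ∈ bin (σ.length + n), τ.take σ.length = σ ∧ good π e τ = true := by
  constructor
  · rintro ⟨X, ⟨hX, hX2⟩, hσ⟩ n
    refine ⟨pre X (σ.length + n), pre_mem_bin hX2 _, ?_, ?_⟩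
    · rw [pre_take X _ _ (by omega), hσ]
    · rw [good_iff]
      intro m hm
      rw [pre_length] at hm
      rw [pre_take X _ _ hm]
      exact mem_P.1 hX m
  · intro h
    let K : ℕ → Set (ℕ → Bool) := fun n => {b | pre (toN b) σ.length = σ ∧
      ∀ m ≤ σ.length + n, π e (pre (toN b) m) = true}
    have hcl : ∀ n, IsClosed (K n) := by
      intro n
      refine isClosed_of_dep (n := σ.length + n) fun b b' hbb hb => ?_
      have hp : ∀ m ≤ σ.length + n, pre (toN b) m = pre (toN b') m := fun m hm =>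
        pre_congr fun i hi => by
          unfold toN
          rw [hbb i (by omega)]
      obtain ⟨h1, h2⟩ := hb
      refine ⟨?_, fun m hm => ?_⟩
      · rw [← hp _ (by omega)]; exact h1
      · rw [← hp _ hm]; exact h2 m hm
    have hne : ∀ n, (K n).Nonempty := by
      intro n
      obtain ⟨τ, hτ, h1, h2⟩ := h n
      rw [mem_bin] at hτ
      have hpre : ∀ m ≤ σ.length + n, pre (toN fun i => (τ[i]?).getD 0 == 1) m = τ.take m := by
        intro m hm
        apply List.ext_getElem
        · rw [pre_length, List.length_take, hτ.1]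
          omega
        · intro i hi1 hi2
          rw [pre_getElem]
          have hi3 : i < τ.length := by
            rw [List.length_take] at hi2
            omega
          have h5 := hτ.2 (τ[i]) (List.getElem_mem hi3)
          have h6 : τ[i]? = some τ[i] := List.getElem?_eq_getElem hi3
          simp only [toN, h6, Option.getD_some, List.getElem_take]
          rcases (by omega : τ[i] = 0 ∨ τ[i] = 1) with h7 | h7 <;> simp [h7]
      refine ⟨fun i => (τ[i]?).getD 0 == 1, ?_, fun m hm => ?_⟩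
      · rw [hpre _ (by omega)]; exact h1
      · rw [hpre _ hm]
        exact good_iff.1 h2 m (by omega)
    have hanti : ∀ n, K (n + 1) ⊆ K n := fun n b hb => ⟨hb.1, fun m hm => hb.2 m (by omega)⟩
    obtain ⟨b, hb⟩ := IsCompact.nonempty_iInter_of_sequence_nonempty_isCompact_isClosed K hanti hne
      (hcl 0).isCompact hcl
    rw [Set.mem_iInter] at hb
    refine ⟨toN b, ⟨mem_P.2 fun n => (hb n).2 n (by omega), toN_mem b⟩, (hb 0).1⟩

theorem ext_pi {π : ℕ → List ℕ → Bool} (hπ : EffEnum π) :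
    Pi 1 fun p : ℕ × List ℕ => Ext π p.1 p.2 := by
  refine Pi.of_iff (p := fun p : ℕ × List ℕ => ∀ n, ∃ τ ∈ bin (p.2.length + n),
    τ.take p.2.length = p.2 ∧ good π p.1 τ = true) ?_ fun p => ext_iff.symm
  refine Pi.all (p := fun (p : ℕ × List ℕ) (n : ℕ) => ∃ τ ∈ bin (p.2.length + n),
    τ.take p.2.length = p.2 ∧ good π p.1 τ = true) ?_
  have hb := bin_comp
  refine Pi.bex (p := fun (q : (ℕ × List ℕ) × ℕ) (τ : List ℕ) =>
    τ.take q.1.2.length = q.1.2 ∧ good π q.1.1 τ = true)
    (l := fun q : (ℕ × List ℕ) × ℕ => bin (q.1.2.length + q.2)) ?_ (by fun_prop)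
  refine Pi.of_cp (cp_and ?_ ?_)
  · exact RE.cp_eq (by fun_prop) (by fun_prop)
  · refine RE.cp_eq ?_ (by fun_prop)
    exact (good_comp hπ).comp (g := fun q : ((ℕ × List ℕ) × ℕ) × List ℕ => (q.1.1.1, q.2))
      (by fun_prop)

/-- Having at least `m` members. -/
theorem le_encard_iff {π : ℕ → List ℕ → Bool} {e m : ℕ} :
    (m : ℕ∞) ≤ (P π e ∩ Cantor).encard ↔
      ∃ L : List (List ℕ), (L.Nodup ∧ L.length = m) ∧ (∃ n, ∀ σ ∈ L, σ.length = n) ∧
        ∀ σ ∈ L, Ext π e σ := by
  constructor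
  · intro h
    obtain ⟨t, ht, htm⟩ := Set.exists_subset_encard_eq h
    have hfin : t.Finite := Set.finite_of_encard_eq_coe htm
    -- separate the elements
    have hsep : ∃ n, ∀ X ∈ t, ∀ Y ∈ t, pre X n = pre Y n → X = Y := by
      classical
      have h1 : ∀ q : (ℕ → ℕ) × (ℕ → ℕ), ∃ n, pre q.1 n = pre q.2 n → q.1 = q.2 := by
        intro q
        by_cases hq : q.1 = q.2
        · exact ⟨0, fun _ => hq⟩
        · obtain ⟨i, hi⟩ := Function.ne_iff.1 hq
          exact ⟨i + 1, fun hpre => absurd (pre_inj hpre i (by omega)) hi⟩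
      choose N hN using h1
      obtain ⟨M, hM⟩ := ((hfin.prod hfin).image N).bddAbove
      refine ⟨M, fun X hX Y hY hXY => ?_⟩
      have h2 : N (X, Y) ≤ M := hM ⟨(X, Y), ⟨hX, hY⟩, rfl⟩
      refine hN (X, Y) ?_
      exact pre_congr fun i hi => pre_inj hXY i (by omega)
    obtain ⟨n, hn⟩ := hsep
    refine ⟨hfin.toFinset.toList.map fun X => pre X n, ⟨?_, ?_⟩, ⟨n, ?_⟩, ?_⟩
    · refine List.Nodup.map_on ?_ (Finset.nodup_toList _)
      intro X hX Y hY hXY
      refine hn X ?_ Y ?_ hXY
      · simpa using hX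
      · simpa using hY
    · rw [List.length_map, Finset.length_toList]
      have := hfin.encard_eq_coe_toFinset_card
      rw [htm] at this
      exact_mod_cast this.symm
    · intro σ hσ
      simp only [List.mem_map] at hσ
      obtain ⟨X, -, rfl⟩ := hσ
      exact pre_length X n
    · intro σ hσ
      simp only [List.mem_map, Finset.mem_toList, Set.Finite.mem_toFinset] at hσ
      obtain ⟨X, hX, rfl⟩ := hσ
      exact ⟨X, ht hX, by rw [pre_length]⟩
  · rintro ⟨L, ⟨hnd, hlen⟩, ⟨n, hn⟩, hL⟩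
    classical
    have hch : ∀ σ : List ℕ, ∃ X : ℕ → ℕ, σ ∈ L → X ∈ P π e ∩ Cantor ∧ pre X n = σ := by
      intro σ
      by_cases hσ : σ ∈ L
      · obtain ⟨X, hX, hXσ⟩ := hL σ hσ
        exact ⟨X, fun _ => ⟨hX, by rw [← hn σ hσ]; exact hXσ⟩⟩
      · exact ⟨fun _ => 0, fun h => absurd h hσ⟩
    choose F hF using hch
    have hinj : Set.InjOn F (L.toFinset : Set (List ℕ)) := by
      intro σ hσ τ hτ hst
      have h1 := (hF σ (by simpa using hσ)).2
      have h2 := (hF τ (by simpa using hτ)).2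
      rw [← h1, ← h2, hst]
    have h3 : F '' (L.toFinset : Set (List ℕ)) ⊆ P π e ∩ Cantor := by
      rintro X ⟨σ, hσ, rfl⟩
      exact (hF σ (by simpa using hσ)).1
    have h4 := Set.encard_le_encard h3
    rw [hinj.encard_image, Set.encard_coe_eq_coe_finsetCard, List.toFinset_card_of_nodup hnd,
      hlen] at h4
    exact h4

theorem ge_sig {π : ℕ → List ℕ → Bool} (hπ : EffEnum π) :
    Sig 2 fun p : ℕ × ℕ => (p.1 : ℕ∞) ≤ (P π p.2 ∩ Cantor).encard := by
  refine Sig.of_iff (p := fun p : ℕ × ℕ => ∃ L : List (List ℕ), (L.Nodup ∧ L.length = p.1) ∧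
    (∃ n, ∀ σ ∈ L, σ.length = n) ∧ ∀ σ ∈ L, Ext π p.2 σ) ?_ fun p => le_encard_iff.symm
  refine Sig.ex (n := 1) (p := fun (p : ℕ × ℕ) (L : List (List ℕ)) => (L.Nodup ∧ L.length = p.1) ∧
    (∃ n, ∀ σ ∈ L, σ.length = n) ∧ ∀ σ ∈ L, Ext π p.2 σ) ?_
  have hnd : REPred fun q : (ℕ × ℕ) × List (List ℕ) => q.2.Nodup := cp_nodup (by fun_prop)
  refine Sig.and (Sig.and (Sig.succ (sig_one.2 hnd)) (Sig.of_cp (RE.cp_eq (by fun_prop)
    (by fun_prop)))) (Sig.and ?_ ?_)
  · refine Sig.exN (n := 1) (p := fun (q : (ℕ × ℕ) × List (List ℕ)) (n : ℕ) =>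
      ∀ σ ∈ q.2, σ.length = n) ?_
    refine Sig.ball (p := fun (r : ((ℕ × ℕ) × List (List ℕ)) × ℕ) (σ : List ℕ) =>
      σ.length = r.2) (l := fun r : ((ℕ × ℕ) × List (List ℕ)) × ℕ => r.1.2) ?_ (by fun_prop)
    exact Sig.of_cp (RE.cp_eq (by fun_prop) (by fun_prop))
  · refine Pi.sig (Pi.ball (p := fun (q : (ℕ × ℕ) × List (List ℕ)) (σ : List ℕ) =>
      Ext π q.1.2 σ) (l := fun q : (ℕ × ℕ) × List (List ℕ) => q.2) ?_ (by fun_prop))
    exact (ext_pi hπ).comp (f := fun r : ((ℕ × ℕ) × List (List ℕ)) × List ℕ => (r.1.1.2, r.2))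
      (by fun_prop)

theorem zero_sig {π : ℕ → List ℕ → Bool} (hπ : EffEnum π) :
    Sig 1 fun e : ℕ => P π e ∩ Cantor = ∅ := by
  have h := (ext_pi hπ).comp (f := fun e : ℕ => (e, ([] : List ℕ))) (by fun_prop)
  refine Sig.of_iff (p := fun e : ℕ => ¬ Ext π e []) h fun e => ?_
  unfold Ext
  constructor
  · intro h1
    ext X
    simp only [Set.mem_empty_iff_false, iff_false]
    intro hX
    exact h1 ⟨X, hX, rfl⟩
  · rintro h1 ⟨X, hX, -⟩
    rw [h1] at hX
    exact hX

end Pool.Agent.Q206.ISC
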